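import Mathlib

set_option autoImplicit false

open Finset

namespace Pool.Agent.Results.MP_8fa74e_co.ExponentBelowFour

variable {ι X : Type} [DecidableEq ι] [DecidableEq X]

/-- The pairs `(S true i, S false i)`, `i ∈ I`, form a 1-cross intersecting set pair system. -/
structure Sys (I : Finset ι) (S : Bool → ι → Finset X) : Prop where
  disj : ∀ i ∈ I, S true i ∩ S false i = ∅
  one : ∀ i ∈ I, ∀ j ∈ I, i ≠ j → (S true i ∩ S false j).card = 1

/-- Indicator functions of the sets of a pair. -/
def ind (S : Bool → ι → Finset X) (s : Bool) (i : ι) (u : X) : ℝ :=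
  if u ∈ S s i then 1 else 0

/-- Sign function of a pair. -/
def sg (S : Bool → ι → Finset X) (i : ι) (u : X) : ℝ := ind S true i u - ind S false i u

omit [DecidableEq ι] in
theorem ind_nonneg (S : Bool → ι → Finset X) (s : Bool) (i : ι) (u : X) : 0 ≤ ind S s i u := by
  unfold ind; split_ifs <;> norm_num

omit [DecidableEq ι] in
theorem ind_sq (S : Bool → ι → Finset X) (s : Bool) (i : ι) (u : X) :
    ind S s i u * ind S s i u = ind S s i u := by
  unfold ind; split_ifs <;> norm_num

omit [DecidableEq ι] in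
theorem ind_mul_ne {I : Finset ι} {S : Bool → ι → Finset X} (h : Sys I S) {i : ι} (hi : i ∈ I)
    {s t : Bool} (hst : s ≠ t) (u : X) : ind S s i u * ind S t i u = 0 := by
  have hd := h.disj i hi
  have key : ¬ (u ∈ S true i ∧ u ∈ S false i) := by
    intro hh
    have : u ∈ S true i ∩ S false i := mem_inter.mpr hh
    rw [hd] at this
    exact absurd this (notMem_empty u)
  unfold ind
  cases s <;> cases t <;> simp at hst ⊢ <;> tauto

variable [Fintype X]

/-- The number of common elements with prescribed signs. -/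
def cnt (S : Bool → ι → Finset X) (s t : Bool) (i j : ι) : ℝ :=
  ∑ u, ind S s i u * ind S t j u

omit [DecidableEq ι] in
theorem cnt_eq_card (S : Bool → ι → Finset X) (s t : Bool) (i j : ι) :
    cnt S s t i j = ((S s i ∩ S t j).card : ℝ) := by
  unfold cnt ind
  have : ∀ u : X, (if u ∈ S s i then (1:ℝ) else 0) * (if u ∈ S t j then (1:ℝ) else 0)
      = if u ∈ S s i ∩ S t j then 1 else 0 := by
    intro u
    by_cases h1 : u ∈ S s i <;> by_cases h2 : u ∈ S t j <;> simp [h1, h2]
  simp only [this]
  rw [Finset.sum_boole]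
  congr 2
  ext u
  simp

omit [DecidableEq ι] in
theorem cnt_nonneg (S : Bool → ι → Finset X) (s t : Bool) (i j : ι) : 0 ≤ cnt S s t i j := by
  rw [cnt_eq_card]; positivity

theorem cnt_ne {I : Finset ι} {S : Bool → ι → Finset X} (h : Sys I S) {i j : ι} (hi : i ∈ I)
    (hj : j ∈ I) {s t : Bool} (hst : s ≠ t) : cnt S s t i j = if i = j then 0 else 1 := by
  rw [cnt_eq_card]
  by_cases hij : i = j
  · subst hij
    rw [if_pos rfl]
    have : S s i ∩ S t i = ∅ := by
      cases s <;> cases t
      · exact absurd rfl hst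
      · rw [inter_comm]; exact h.disj i hi
      · exact h.disj i hi
      · exact absurd rfl hst
    rw [this]; simp
  · rw [if_neg hij]
    have : (S s i ∩ S t j).card = 1 := by
      cases s <;> cases t
      · exact absurd rfl hst
      · rw [inter_comm]; exact h.one j hj i hi (Ne.symm hij)
      · exact h.one i hi j hj hij
      · exact absurd rfl hst
    rw [this]; simp

/-- The function counting a common element with signs `p.1` in `i` and `p.2` in `j`. -/
def pf (S : Bool → ι → Finset X) (i j : ι) (p : Bool × Bool) (u : X) : ℝ :=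
  ind S p.1 i u * ind S p.2 j u

omit [Fintype X] [DecidableEq ι] in
theorem pf_mul {I : Finset ι} {S : Bool → ι → Finset X} (h : Sys I S) {i j : ι} (hi : i ∈ I)
    (hj : j ∈ I) (p q : Bool × Bool) (u : X) :
    pf S i j p u * pf S i j q u = if p = q then pf S i j p u else 0 := by
  unfold pf
  by_cases hpq : p = q
  · subst hpq
    rw [if_pos rfl]
    calc _ = (ind S p.1 i u * ind S p.1 i u) * (ind S p.2 j u * ind S p.2 j u) := by ring
      _ = _ := by rw [ind_sq, ind_sq]
  · rw [if_neg hpq]
    have : p.1 ≠ q.1 ∨ p.2 ≠ q.2 := by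
      by_contra hcon
      push Not at hcon
      exact hpq (Prod.ext hcon.1 hcon.2)
    rcases this with h1 | h1
    · calc _ = (ind S p.1 i u * ind S q.1 i u) * (ind S p.2 j u * ind S q.2 j u) := by ring
        _ = _ := by rw [ind_mul_ne h hi h1, zero_mul]
    · calc _ = (ind S p.1 i u * ind S q.1 i u) * (ind S p.2 j u * ind S q.2 j u) := by ring
        _ = _ := by rw [ind_mul_ne h hj h1, mul_zero]

/-- Ordered triples of distinct elements. -/
def D3 (X : Type) [Fintype X] [DecidableEq X] : Finset (X × X × X) :=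
  univ.filter (fun t => t.1 ≠ t.2.1 ∧ t.1 ≠ t.2.2 ∧ t.2.1 ≠ t.2.2)

/-- Sum over ordered triples of distinct elements of a product. -/
theorem sum_D3 (F G H : X → ℝ) :
    ∑ t ∈ D3 X, F t.1 * G t.2.1 * H t.2.2 =
      (∑ u, F u) * (∑ u, G u) * (∑ u, H u) - (∑ u, F u * G u) * (∑ u, H u)
        - (∑ u, F u * H u) * (∑ u, G u) - (∑ u, G u * H u) * (∑ u, F u)
        + 2 * ∑ u, F u * G u * H u := by
  have h1 : ∀ t : X × X × X, (if (t.1 ≠ t.2.1 ∧ t.1 ≠ t.2.2 ∧ t.2.1 ≠ t.2.2)
      then F t.1 * G t.2.1 * H t.2.2 else 0) =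
      F t.1 * G t.2.1 * H t.2.2
        - (if t.1 = t.2.1 then F t.1 * G t.2.1 * H t.2.2 else 0)
        - (if t.1 = t.2.2 then F t.1 * G t.2.1 * H t.2.2 else 0)
        - (if t.2.1 = t.2.2 then F t.1 * G t.2.1 * H t.2.2 else 0)
        + 2 * (if t.1 = t.2.1 then (if t.2.1 = t.2.2 then F t.1 * G t.2.1 * H t.2.2 else 0) else 0) := by
    rintro ⟨u, v, w⟩
    by_cases a : u = v
    · by_cases b : v = w
      · subst a; subst b; simp; ring
      · subst a; simp [b]
    · by_cases b : v = w
      · subst b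
        simp [a]
      · by_cases c : u = w
        · subst c; simp [a, b]
        · simp [a, b, c]
  rw [D3, Finset.sum_filter]
  simp only [h1]
  rw [Finset.sum_add_distrib, Finset.sum_sub_distrib, Finset.sum_sub_distrib,
    Finset.sum_sub_distrib, ← Finset.mul_sum]
  have e0 : ∑ t : X × X × X, F t.1 * G t.2.1 * H t.2.2 = (∑ u, F u) * (∑ u, G u) * (∑ u, H u) := by
    rw [Fintype.sum_prod_type]
    simp only [Fintype.sum_prod_type]
    rw [Finset.sum_mul_sum, Finset.sum_mul]
    refine Finset.sum_congr rfl fun u _ => ?_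
    rw [Finset.sum_mul]
    refine Finset.sum_congr rfl fun v _ => ?_
    rw [Finset.mul_sum]
  have e1 : ∑ t : X × X × X, (if t.1 = t.2.1 then F t.1 * G t.2.1 * H t.2.2 else 0)
      = (∑ u, F u * G u) * (∑ u, H u) := by
    rw [Fintype.sum_prod_type]
    simp only [Fintype.sum_prod_type]
    rw [Finset.sum_mul]
    refine Finset.sum_congr rfl fun u _ => ?_
    rw [Finset.sum_comm, Finset.mul_sum]
    refine Finset.sum_congr rfl fun w _ => ?_
    rw [Finset.sum_ite_eq]
    simp
  have e2 : ∑ t : X × X × X, (if t.1 = t.2.2 then F t.1 * G t.2.1 * H t.2.2 else 0)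
      = (∑ u, F u * H u) * (∑ u, G u) := by
    rw [Fintype.sum_prod_type]
    simp only [Fintype.sum_prod_type]
    rw [Finset.sum_mul]
    refine Finset.sum_congr rfl fun u _ => ?_
    rw [Finset.mul_sum]
    refine Finset.sum_congr rfl fun w _ => ?_
    rw [Finset.sum_ite_eq]
    simp
    ring
  have e3 : ∑ t : X × X × X, (if t.2.1 = t.2.2 then F t.1 * G t.2.1 * H t.2.2 else 0)
      = (∑ u, G u * H u) * (∑ u, F u) := by
    rw [Fintype.sum_prod_type]
    simp only [Fintype.sum_prod_type]
    rw [mul_comm, Finset.sum_mul]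
    refine Finset.sum_congr rfl fun u _ => ?_
    rw [Finset.mul_sum]
    refine Finset.sum_congr rfl fun w _ => ?_
    rw [Finset.sum_ite_eq]
    simp
    ring
  have e4 : ∑ t : X × X × X, (if t.1 = t.2.1 then
      (if t.2.1 = t.2.2 then F t.1 * G t.2.1 * H t.2.2 else 0) else 0)
      = ∑ u, F u * G u * H u := by
    rw [Fintype.sum_prod_type]
    simp only [Fintype.sum_prod_type]
    refine Finset.sum_congr rfl fun u _ => ?_
    have : ∀ v w : X, (if u = v then (if v = w then F u * G v * H w else 0) else 0)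
        = if v = u then (if u = w then F u * G u * H w else 0) else 0 := by
      intro v w
      by_cases a : v = u
      · subst a; simp
      · simp [a, Ne.symm a]
    simp only [this]
    rw [Finset.sum_comm]
    simp
  rw [e0, e1, e2, e3, e4]

/-- Evaluation of triple sums of pair functions. -/
theorem sum_D3_pf {I : Finset ι} {S : Bool → ι → Finset X} (h : Sys I S) {i j : ι} (hi : i ∈ I)
    (hj : j ∈ I) (p q r : Bool × Bool) :
    ∑ t ∈ D3 X, pf S i j p t.1 * pf S i j q t.2.1 * pf S i j r t.2.2 =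
      cnt S p.1 p.2 i j * cnt S q.1 q.2 i j * cnt S r.1 r.2 i j
      - (if p = q then cnt S p.1 p.2 i j else 0) * cnt S r.1 r.2 i j
      - (if p = r then cnt S p.1 p.2 i j else 0) * cnt S q.1 q.2 i j
      - (if q = r then cnt S q.1 q.2 i j else 0) * cnt S p.1 p.2 i j
      + 2 * (if p = q then (if q = r then cnt S p.1 p.2 i j else 0) else 0) := by
  rw [sum_D3]
  have hc : ∀ p : Bool × Bool, ∑ u, pf S i j p u = cnt S p.1 p.2 i j := fun p => rfl
  have h2 : ∀ p q : Bool × Bool, ∑ u, pf S i j p u * pf S i j q u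
      = if p = q then cnt S p.1 p.2 i j else 0 := by
    intro p q
    simp only [pf_mul h hi hj]
    split_ifs
    · rfl
    · simp
  have h3 : ∑ u, pf S i j p u * pf S i j q u * pf S i j r u
      = if p = q then (if q = r then cnt S p.1 p.2 i j else 0) else 0 := by
    simp only [pf_mul h hi hj]
    by_cases a : p = q
    · subst a
      simp only [if_true]
      rw [h2]
    · simp [a]
  rw [hc, hc, hc, h2, h2, h2, h3]

/-- The pointwise inequality for the eight sign pattern weights of a triple. -/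
theorem pattern_ineq (a0 a1 a2 a3 b0 b1 b2 b3 : ℝ)
    (ha0 : 0 ≤ a0) (ha1 : 0 ≤ a1) (ha2 : 0 ≤ a2) (ha3 : 0 ≤ a3)
    (hb0 : 0 ≤ b0) (hb1 : 0 ≤ b1) (hb2 : 0 ≤ b2) (hb3 : 0 ≤ b3)
    (h01 : a0 * b1 = 0) (h02 : a0 * b2 = 0) (h03 : a0 * b3 = 0) (h00 : a0 * b0 = 0)
    (h10 : a1 * b0 = 0) (h20 : a2 * b0 = 0) (h30 : a3 * b0 = 0)
    (h11 : a1 * b1 = 0) (h22 : a2 * b2 = 0) (h33 : a3 * b3 = 0) :
    23 / 24 * (2 * (a1 * a2 + a1 * a3 + a2 * a3) + 2 * (b1 * b2 + b1 * b3 + b2 * b3)) ≤
      2 / 3 * (a0 * (a1 + a2 + a3) + b0 * (b1 + b2 + b3)) +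
      1 / 2 * (a1 * b2 + a1 * b3 + a2 * b1 + a2 * b3 + a3 * b1 + a3 * b2) +
      4 * (a0 - (a1 + a2 + a3) + (b1 + b2 + b3) - b0) ^ 2 := by
  -- one sided case
  have one_sided : ∀ x y z t : ℝ, 0 ≤ x → 0 ≤ y → 0 ≤ z → 0 ≤ t →
      23 / 24 * (2 * (x * y + x * z + y * z)) ≤ 2 / 3 * (t * (x + y + z)) + 4 * (t - (x + y + z)) ^ 2 := by
    intro x y z t hx hy hz ht
    nlinarith [sq_nonneg (x - y), sq_nonneg (x - z), sq_nonneg (y - z),
      sq_nonneg (t - (x + y + z) + (x + y + z) / 12)]
  have two_one : ∀ x y t : ℝ, 0 ≤ x → 0 ≤ y → 0 ≤ t →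
      23 / 24 * (2 * (x * y)) ≤ 1 / 2 * (t * (x + y)) + 4 * (t - (x + y)) ^ 2 := by
    intro x y t hx hy ht
    nlinarith [sq_nonneg (x - y), sq_nonneg (t - (x + y) + (x + y) / 12), sq_nonneg (t - (x + y)),
      mul_nonneg ht hx, mul_nonneg ht hy]
  rcases eq_or_lt_of_le ha0 with e0 | e0
  swap
  · have z1 : b1 = 0 := (mul_eq_zero.mp h01).resolve_left e0.ne'
    have z2 : b2 = 0 := (mul_eq_zero.mp h02).resolve_left e0.ne'
    have z3 : b3 = 0 := (mul_eq_zero.mp h03).resolve_left e0.ne'
    have z0 : b0 = 0 := (mul_eq_zero.mp h00).resolve_left e0.ne'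
    subst z1 z2 z3 z0
    have := one_sided a1 a2 a3 a0 ha1 ha2 ha3 ha0
    nlinarith [this]
  rcases eq_or_lt_of_le hb0 with f0 | f0
  swap
  · have z1 : a1 = 0 := (mul_eq_zero.mp h10).resolve_right f0.ne'
    have z2 : a2 = 0 := (mul_eq_zero.mp h20).resolve_right f0.ne'
    have z3 : a3 = 0 := (mul_eq_zero.mp h30).resolve_right f0.ne'
    subst z1 z2 z3
    have := one_sided b1 b2 b3 b0 hb1 hb2 hb3 hb0
    rw [← e0]
    nlinarith [this]
  rw [← e0, ← f0]
  rcases mul_eq_zero.mp h11 with z1 | z1 <;> rcases mul_eq_zero.mp h22 with z2 | z2 <;>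
    rcases mul_eq_zero.mp h33 with z3 | z3 <;> subst z1 z2 z3
  · have := one_sided b1 b2 b3 0 hb1 hb2 hb3 le_rfl
    nlinarith [this]
  · have := two_one b1 b2 a3 hb1 hb2 ha3
    nlinarith [this]
  · have := two_one b1 b3 a2 hb1 hb3 ha2
    nlinarith [this]
  · have := two_one a2 a3 b1 ha2 ha3 hb1
    nlinarith [this]
  · have := two_one b2 b3 a1 hb2 hb3 ha1
    nlinarith [this]
  · have := two_one a1 a3 b2 ha1 ha3 hb2
    nlinarith [this]
  · have := two_one a1 a2 b3 ha1 ha2 hb3
    nlinarith [this]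
  · have := one_sided a1 a2 a3 0 ha1 ha2 ha3 le_rfl
    nlinarith [this]


section W

variable (I : Finset ι) (S : Bool → ι → Finset X) (w : ι → ℝ)

/-- Weight of the indices with a prescribed sign pattern on a triple. -/
def P (s1 s2 s3 : Bool) (t : X × X × X) : ℝ :=
  ∑ i ∈ I, w i * (ind S s1 i t.1 * ind S s2 i t.2.1 * ind S s3 i t.2.2)

/-- Third order Fourier coefficient. -/
def T3 (t : X × X × X) : ℝ := ∑ i ∈ I, w i * (sg S i t.1 * sg S i t.2.1 * sg S i t.2.2)

omit [DecidableEq ι] [Fintype X] in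
theorem P_nonneg (hw : ∀ i ∈ I, 0 ≤ w i) (s1 s2 s3 : Bool) (t : X × X × X) :
    0 ≤ P I S w s1 s2 s3 t := by
  unfold P
  refine Finset.sum_nonneg fun i hi => ?_
  exact mul_nonneg (hw i hi) (mul_nonneg (mul_nonneg (ind_nonneg _ _ _ _) (ind_nonneg _ _ _ _))
    (ind_nonneg _ _ _ _))

omit [DecidableEq ι] [Fintype X] in
theorem P_mul (s1 s2 s3 s1' s2' s3' : Bool) (t : X × X × X) :
    P I S w s1 s2 s3 t * P I S w s1' s2' s3' t =
      ∑ i ∈ I, ∑ j ∈ I, w i * w j *
        (pf S i j (s1, s1') t.1 * pf S i j (s2, s2') t.2.1 * pf S i j (s3, s3') t.2.2) := by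
  unfold P pf
  rw [Finset.sum_mul_sum]
  refine Finset.sum_congr rfl fun i _ => Finset.sum_congr rfl fun j _ => ?_
  ring

theorem two_conf {I : Finset ι} {S : Bool → ι → Finset X} (h : Sys I S) {i j : ι} (hi : i ∈ I)
    (hj : j ∈ I) {u v : X} (huv : u ≠ v) :
    pf S i j (true, false) u * pf S i j (true, false) v = 0 := by
  unfold pf ind
  by_cases h1 : u ∈ S true i <;> by_cases h2 : u ∈ S false j <;> by_cases h3 : v ∈ S true i <;>
    by_cases h4 : v ∈ S false j <;> simp [h1, h2, h3, h4]
  exfalso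
  by_cases hij : i = j
  · subst hij
    have : u ∈ S true i ∩ S false i := mem_inter.mpr ⟨h1, h2⟩
    rw [h.disj i hi] at this
    exact absurd this (notMem_empty u)
  · have hc := h.one i hi j hj hij
    rw [Finset.card_eq_one] at hc
    obtain ⟨x, hx⟩ := hc
    have hu : u ∈ S true i ∩ S false j := mem_inter.mpr ⟨h1, h2⟩
    have hv : v ∈ S true i ∩ S false j := mem_inter.mpr ⟨h3, h4⟩
    rw [hx, Finset.mem_singleton] at hu hv
    exact huv (hu.trans hv.symm)

theorem P_zero12 {I : Finset ι} {S : Bool → ι → Finset X} (h : Sys I S) (w : ι → ℝ)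
    {t : X × X × X} (ht : t ∈ D3 X) (c c' : Bool) :
    P I S w true true c t * P I S w false false c' t = 0 := by
  rw [P_mul]
  refine Finset.sum_eq_zero fun i hi => Finset.sum_eq_zero fun j hj => ?_
  rw [D3, Finset.mem_filter] at ht
  rw [two_conf h hi hj ht.2.1]
  ring

theorem P_zero13 {I : Finset ι} {S : Bool → ι → Finset X} (h : Sys I S) (w : ι → ℝ)
    {t : X × X × X} (ht : t ∈ D3 X) (c c' : Bool) :
    P I S w true c true t * P I S w false c' false t = 0 := by
  rw [P_mul]
  refine Finset.sum_eq_zero fun i hi => Finset.sum_eq_zero fun j hj => ?_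
  rw [D3, Finset.mem_filter] at ht
  have := two_conf h hi hj ht.2.2.1
  calc _ = w i * w j * pf S i j (c, c') t.2.1 *
        (pf S i j (true, false) t.1 * pf S i j (true, false) t.2.2) := by ring
    _ = 0 := by rw [this, mul_zero]

theorem P_zero23 {I : Finset ι} {S : Bool → ι → Finset X} (h : Sys I S) (w : ι → ℝ)
    {t : X × X × X} (ht : t ∈ D3 X) (c c' : Bool) :
    P I S w c true true t * P I S w c' false false t = 0 := by
  rw [P_mul]
  refine Finset.sum_eq_zero fun i hi => Finset.sum_eq_zero fun j hj => ?_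
  rw [D3, Finset.mem_filter] at ht
  have := two_conf h hi hj ht.2.2.2
  calc _ = w i * w j * pf S i j (c, c') t.1 *
        (pf S i j (true, false) t.2.1 * pf S i j (true, false) t.2.2) := by ring
    _ = 0 := by rw [this, mul_zero]

omit [DecidableEq ι] [Fintype X] in
theorem T3_eq (t : X × X × X) : T3 I S w t =
    P I S w true true true t - (P I S w false true true t + P I S w true false true t
      + P I S w true true false t) + (P I S w true false false t + P I S w false true false t
      + P I S w false false true t) - P I S w false false false t := by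
  unfold T3 P sg
  simp only [← Finset.sum_add_distrib, ← Finset.sum_sub_distrib]
  refine Finset.sum_congr rfl fun i _ => ?_
  ring

theorem sum_P_mul {I : Finset ι} {S : Bool → ι → Finset X} (h : Sys I S) (w : ι → ℝ)
    (s1 s2 s3 s1' s2' s3' : Bool) (val : ι → ι → ℝ)
    (hv : ∀ i ∈ I, ∀ j ∈ I,
      cnt S s1 s1' i j * cnt S s2 s2' i j * cnt S s3 s3' i j
      - (if (s1, s1') = (s2, s2') then cnt S s1 s1' i j else 0) * cnt S s3 s3' i j
      - (if (s1, s1') = (s3, s3') then cnt S s1 s1' i j else 0) * cnt S s2 s2' i j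
      - (if (s2, s2') = (s3, s3') then cnt S s2 s2' i j else 0) * cnt S s1 s1' i j
      + 2 * (if (s1, s1') = (s2, s2') then
        (if (s2, s2') = (s3, s3') then cnt S s1 s1' i j else 0) else 0) = val i j) :
    ∑ t ∈ D3 X, P I S w s1 s2 s3 t * P I S w s1' s2' s3' t =
      ∑ i ∈ I, ∑ j ∈ I, w i * w j * val i j := by
  simp only [P_mul]
  rw [Finset.sum_comm]
  refine Finset.sum_congr rfl fun i hi => ?_
  rw [Finset.sum_comm]
  refine Finset.sum_congr rfl fun j hj => ?_
  rw [← Finset.mul_sum, sum_D3_pf h hi hj, hv i hi j hj]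

/-- The third order inequality. -/
theorem third_order {I : Finset ι} {S : Bool → ι → Finset X} (h : Sys I S) (w : ι → ℝ)
    (hw : ∀ i ∈ I, 0 ≤ w i) :
    23 / 4 * (∑ i ∈ I, ∑ j ∈ I, w i * w j * (if i = j then 0 else
        (cnt S true true i j + cnt S false false i j))) ≤
      2 * (∑ i ∈ I, ∑ j ∈ I, w i * w j * (if i = j then 0 else
        (cnt S true true i j * (cnt S true true i j - 1) +
          cnt S false false i j * (cnt S false false i j - 1)))) +
      3 * (∑ i ∈ I, ∑ j ∈ I, w i * w j * (if i = j then 0 else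
        (cnt S true true i j * cnt S false false i j))) +
      4 * ∑ t ∈ D3 X, T3 I S w t ^ 2 := by
  have key : ∀ t ∈ D3 X, 0 ≤
      (2 / 3 * (P I S w true true true t * P I S w false true true t
        + P I S w true true true t * P I S w true false true t
        + P I S w true true true t * P I S w true true false t
        + P I S w false false false t * P I S w true false false t
        + P I S w false false false t * P I S w false true false t
        + P I S w false false false t * P I S w false false true t) +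
      1 / 2 * (P I S w false true true t * P I S w false true false t
        + P I S w false true true t * P I S w false false true t
        + P I S w true false true t * P I S w true false false t
        + P I S w true false true t * P I S w false false true t
        + P I S w true true false t * P I S w true false false t
        + P I S w true true false t * P I S w false true false t) +
      4 * T3 I S w t ^ 2) -
      23 / 12 * (P I S w false true true t * P I S w true false true t
        + P I S w false true true t * P I S w true true false t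
        + P I S w true false true t * P I S w true true false t
        + P I S w true false false t * P I S w false true false t
        + P I S w true false false t * P I S w false false true t
        + P I S w false true false t * P I S w false false true t) := by
    intro t ht
    have hn := P_nonneg I S w hw
    have := pattern_ineq (P I S w true true true t) (P I S w false true true t)
      (P I S w true false true t) (P I S w true true false t) (P I S w false false false t)
      (P I S w true false false t) (P I S w false true false t) (P I S w false false true t)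
      (hn _ _ _ _) (hn _ _ _ _) (hn _ _ _ _) (hn _ _ _ _) (hn _ _ _ _) (hn _ _ _ _)
      (hn _ _ _ _) (hn _ _ _ _)
      (P_zero23 h w ht _ _) (P_zero13 h w ht _ _) (P_zero12 h w ht _ _) (P_zero12 h w ht _ _)
      (P_zero23 h w ht _ _) (P_zero13 h w ht _ _) (P_zero12 h w ht _ _)
      (P_zero23 h w ht _ _) (P_zero13 h w ht _ _) (P_zero12 h w ht _ _)
    rw [← T3_eq] at this
    linarith
  have hsum := Finset.sum_nonneg key
  simp only [Finset.sum_sub_distrib, Finset.sum_add_distrib, ← Finset.mul_sum] at hsum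
  have ev : ∀ i ∈ I, ∀ j ∈ I, ∀ s t : Bool, s ≠ t → cnt S s t i j = if i = j then 0 else 1 :=
    fun i hi j hj s t hst => cnt_ne h hi hj hst
  have A1 : ∀ s1 s2 s3 s1' s2' s3' : Bool,
      ((s1, s1') = (false, true) ∧ (s2, s2') = (true, false) ∧ (s3, s3') = (true, true)) ∨
      ((s1, s1') = (false, true) ∧ (s2, s2') = (true, true) ∧ (s3, s3') = (true, false)) ∨
      ((s1, s1') = (true, true) ∧ (s2, s2') = (false, true) ∧ (s3, s3') = (true, false)) →
      ∑ t ∈ D3 X, P I S w s1 s2 s3 t * P I S w s1' s2' s3' t =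
      ∑ i ∈ I, ∑ j ∈ I, w i * w j * (if i = j then 0 else cnt S true true i j) := by
    rintro s1 s2 s3 s1' s2' s3' hh
    apply sum_P_mul h w
    intro i hi j hj
    rcases hh with ⟨h1, h2, h3⟩ | ⟨h1, h2, h3⟩ | ⟨h1, h2, h3⟩ <;>
    · simp only [Prod.mk.injEq] at h1 h2 h3
      obtain ⟨rfl, rfl⟩ := h1
      obtain ⟨rfl, rfl⟩ := h2
      obtain ⟨rfl, rfl⟩ := h3
      rw [ev i hi j hj false true (by decide), ev i hi j hj true false (by decide)]
      by_cases hij : i = j <;> simp [hij]
  have A2 : ∀ s1 s2 s3 s1' s2' s3' : Bool,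
      ((s1, s1') = (true, false) ∧ (s2, s2') = (false, true) ∧ (s3, s3') = (false, false)) ∨
      ((s1, s1') = (true, false) ∧ (s2, s2') = (false, false) ∧ (s3, s3') = (false, true)) ∨
      ((s1, s1') = (false, false) ∧ (s2, s2') = (true, false) ∧ (s3, s3') = (false, true)) →
      ∑ t ∈ D3 X, P I S w s1 s2 s3 t * P I S w s1' s2' s3' t =
      ∑ i ∈ I, ∑ j ∈ I, w i * w j * (if i = j then 0 else cnt S false false i j) := by
    rintro s1 s2 s3 s1' s2' s3' hh
    apply sum_P_mul h w
    intro i hi j hj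
    rcases hh with ⟨h1, h2, h3⟩ | ⟨h1, h2, h3⟩ | ⟨h1, h2, h3⟩ <;>
    · simp only [Prod.mk.injEq] at h1 h2 h3
      obtain ⟨rfl, rfl⟩ := h1
      obtain ⟨rfl, rfl⟩ := h2
      obtain ⟨rfl, rfl⟩ := h3
      rw [ev i hi j hj false true (by decide), ev i hi j hj true false (by decide)]
      by_cases hij : i = j <;> simp [hij]
  have A3 : ∀ s1 s2 s3 s1' s2' s3' : Bool,
      ((s1, s1') = (true, false) ∧ (s2, s2') = (true, true) ∧ (s3, s3') = (true, true)) ∨
      ((s1, s1') = (true, true) ∧ (s2, s2') = (true, false) ∧ (s3, s3') = (true, true)) ∨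
      ((s1, s1') = (true, true) ∧ (s2, s2') = (true, true) ∧ (s3, s3') = (true, false)) →
      ∑ t ∈ D3 X, P I S w s1 s2 s3 t * P I S w s1' s2' s3' t =
      ∑ i ∈ I, ∑ j ∈ I, w i * w j * (if i = j then 0 else
        cnt S true true i j * (cnt S true true i j - 1)) := by
    rintro s1 s2 s3 s1' s2' s3' hh
    apply sum_P_mul h w
    intro i hi j hj
    rcases hh with ⟨h1, h2, h3⟩ | ⟨h1, h2, h3⟩ | ⟨h1, h2, h3⟩ <;>
    · simp only [Prod.mk.injEq] at h1 h2 h3
      obtain ⟨rfl, rfl⟩ := h1
      obtain ⟨rfl, rfl⟩ := h2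
      obtain ⟨rfl, rfl⟩ := h3
      rw [ev i hi j hj true false (by decide)]
      by_cases hij : i = j
      · simp [hij]
      · simp [hij]; ring
  have A4 : ∀ s1 s2 s3 s1' s2' s3' : Bool,
      ((s1, s1') = (false, true) ∧ (s2, s2') = (false, false) ∧ (s3, s3') = (false, false)) ∨
      ((s1, s1') = (false, false) ∧ (s2, s2') = (false, true) ∧ (s3, s3') = (false, false)) ∨
      ((s1, s1') = (false, false) ∧ (s2, s2') = (false, false) ∧ (s3, s3') = (false, true)) →
      ∑ t ∈ D3 X, P I S w s1 s2 s3 t * P I S w s1' s2' s3' t =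
      ∑ i ∈ I, ∑ j ∈ I, w i * w j * (if i = j then 0 else
        cnt S false false i j * (cnt S false false i j - 1)) := by
    rintro s1 s2 s3 s1' s2' s3' hh
    apply sum_P_mul h w
    intro i hi j hj
    rcases hh with ⟨h1, h2, h3⟩ | ⟨h1, h2, h3⟩ | ⟨h1, h2, h3⟩ <;>
    · simp only [Prod.mk.injEq] at h1 h2 h3
      obtain ⟨rfl, rfl⟩ := h1
      obtain ⟨rfl, rfl⟩ := h2
      obtain ⟨rfl, rfl⟩ := h3
      rw [ev i hi j hj false true (by decide)]
      by_cases hij : i = j
      · simp [hij]
      · simp [hij]; ring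
  have A5 : ∀ s1 s2 s3 s1' s2' s3' : Bool,
      ((s1, s1') = (false, false) ∧ (s2, s2') = (true, true) ∧ (s3, s3') = (true, false)) ∨
      ((s1, s1') = (false, false) ∧ (s2, s2') = (true, false) ∧ (s3, s3') = (true, true)) ∨
      ((s1, s1') = (true, true) ∧ (s2, s2') = (false, false) ∧ (s3, s3') = (true, false)) ∨
      ((s1, s1') = (true, false) ∧ (s2, s2') = (false, false) ∧ (s3, s3') = (true, true)) ∨
      ((s1, s1') = (true, true) ∧ (s2, s2') = (true, false) ∧ (s3, s3') = (false, false)) ∨
      ((s1, s1') = (true, false) ∧ (s2, s2') = (true, true) ∧ (s3, s3') = (false, false)) →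
      ∑ t ∈ D3 X, P I S w s1 s2 s3 t * P I S w s1' s2' s3' t =
      ∑ i ∈ I, ∑ j ∈ I, w i * w j * (if i = j then 0 else
        cnt S true true i j * cnt S false false i j) := by
    rintro s1 s2 s3 s1' s2' s3' hh
    apply sum_P_mul h w
    intro i hi j hj
    rcases hh with ⟨h1, h2, h3⟩ | ⟨h1, h2, h3⟩ | ⟨h1, h2, h3⟩ | ⟨h1, h2, h3⟩ | ⟨h1, h2, h3⟩ |
      ⟨h1, h2, h3⟩ <;>
    · simp only [Prod.mk.injEq] at h1 h2 h3
      obtain ⟨rfl, rfl⟩ := h1
      obtain ⟨rfl, rfl⟩ := h2
      obtain ⟨rfl, rfl⟩ := h3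
      rw [ev i hi j hj true false (by decide)]
      by_cases hij : i = j
      · simp [hij]
      · simp [hij]; try ring
  rw [A1 false true true true false true (by simp), A1 false true true true true false (by simp),
    A1 true false true true true false (by simp), A2 true false false false true false (by simp),
    A2 true false false false false true (by simp), A2 false true false false false true (by simp),
    A3 true true true false true true (by simp), A3 true true true true false true (by simp),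
    A3 true true true true true false (by simp), A4 false false false true false false (by simp),
    A4 false false false false true false (by simp), A4 false false false false false true (by simp),
    A5 false true true false true false (by simp), A5 false true true false false true (by simp),
    A5 true false true true false false (by simp), A5 true false true false false true (by simp),
    A5 true true false true false false (by simp), A5 true true false false true false (by simp)]
    at hsum
  have B1 : ∑ i ∈ I, ∑ j ∈ I, w i * w j * (if i = j then 0 else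
        (cnt S true true i j + cnt S false false i j)) =
      (∑ i ∈ I, ∑ j ∈ I, w i * w j * (if i = j then 0 else cnt S true true i j)) +
      ∑ i ∈ I, ∑ j ∈ I, w i * w j * (if i = j then 0 else cnt S false false i j) := by
    rw [← Finset.sum_add_distrib]
    refine Finset.sum_congr rfl fun i _ => ?_
    rw [← Finset.sum_add_distrib]
    refine Finset.sum_congr rfl fun j _ => ?_
    split_ifs <;> ring
  have B2 : ∑ i ∈ I, ∑ j ∈ I, w i * w j * (if i = j then 0 else
        (cnt S true true i j * (cnt S true true i j - 1) +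
          cnt S false false i j * (cnt S false false i j - 1))) =
      (∑ i ∈ I, ∑ j ∈ I, w i * w j * (if i = j then 0 else
        cnt S true true i j * (cnt S true true i j - 1))) +
      ∑ i ∈ I, ∑ j ∈ I, w i * w j * (if i = j then 0 else
        cnt S false false i j * (cnt S false false i j - 1)) := by
    rw [← Finset.sum_add_distrib]
    refine Finset.sum_congr rfl fun i _ => ?_
    rw [← Finset.sum_add_distrib]
    refine Finset.sum_congr rfl fun j _ => ?_
    split_ifs <;> ring
  rw [B1, B2]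
  linarith

end W

section W12

variable (I : Finset ι) (S : Bool → ι → Finset X) (w : ι → ℝ)

/-- Ordered pairs of distinct elements. -/
def D2 (X : Type) [Fintype X] [DecidableEq X] : Finset (X × X) :=
  univ.filter (fun t => t.1 ≠ t.2)

/-- First order Fourier coefficient. -/
def T1 (u : X) : ℝ := ∑ i ∈ I, w i * sg S i u

/-- Second order Fourier coefficient. -/
def T2 (t : X × X) : ℝ := ∑ i ∈ I, w i * (sg S i t.1 * sg S i t.2)

omit [DecidableEq ι] in
theorem sum_sg_mul (i j : ι) : ∑ u, sg S i u * sg S j u =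
    cnt S true true i j + cnt S false false i j - cnt S true false i j - cnt S false true i j := by
  unfold cnt sg
  rw [← Finset.sum_add_distrib, ← Finset.sum_sub_distrib, ← Finset.sum_sub_distrib]
  refine Finset.sum_congr rfl fun u _ => ?_
  ring

omit [DecidableEq ι] in
theorem sum_sg_sq {I : Finset ι} {S : Bool → ι → Finset X} (h : Sys I S) {i j : ι} (hi : i ∈ I)
    (hj : j ∈ I) : ∑ u, (sg S i u * sg S j u) ^ 2 =
    cnt S true true i j + cnt S false false i j + cnt S true false i j + cnt S false true i j := by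
  unfold cnt sg
  rw [← Finset.sum_add_distrib, ← Finset.sum_add_distrib, ← Finset.sum_add_distrib]
  refine Finset.sum_congr rfl fun u _ => ?_
  have e1 := ind_sq S true i u
  have e2 := ind_sq S false i u
  have e3 := ind_sq S true j u
  have e4 := ind_sq S false j u
  have e5 := ind_mul_ne h hi (s := true) (t := false) (by decide) u
  have e6 := ind_mul_ne h hj (s := true) (t := false) (by decide) u
  have f1 : (ind S true i u - ind S false i u) ^ 2 = ind S true i u + ind S false i u := by
    have : (ind S true i u - ind S false i u) ^ 2 = ind S true i u * ind S true i u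
      + ind S false i u * ind S false i u - 2 * (ind S true i u * ind S false i u) := by ring
    rw [this, e1, e2, e5]; ring
  have f2 : (ind S true j u - ind S false j u) ^ 2 = ind S true j u + ind S false j u := by
    have : (ind S true j u - ind S false j u) ^ 2 = ind S true j u * ind S true j u
      + ind S false j u * ind S false j u - 2 * (ind S true j u * ind S false j u) := by ring
    rw [this, e3, e4, e6]; ring
  rw [mul_pow, f1, f2]; ring

omit [DecidableEq ι] in
theorem sum_D2 (F G : X → ℝ) : ∑ t ∈ D2 X, F t.1 * G t.2 = (∑ u, F u) * (∑ u, G u) - ∑ u, F u * G u := by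
  have h1 : ∀ t : X × X, (if t.1 ≠ t.2 then F t.1 * G t.2 else 0)
      = F t.1 * G t.2 - (if t.1 = t.2 then F t.1 * G t.2 else 0) := by
    intro t
    by_cases h : t.1 = t.2 <;> simp [h]
  rw [D2, Finset.sum_filter]
  simp only [h1]
  rw [Finset.sum_sub_distrib, Fintype.sum_prod_type, Fintype.sum_prod_type, Finset.sum_mul_sum]
  congr 1
  refine Finset.sum_congr rfl fun u _ => ?_
  simp

theorem first_order {I : Finset ι} {S : Bool → ι → Finset X} (h : Sys I S) (w : ι → ℝ) :
    (∑ i ∈ I, ∑ j ∈ I, w i * w j * (if i = j then 0 else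
        (cnt S true true i j + cnt S false false i j))) -
      2 * (∑ i ∈ I, ∑ j ∈ I, w i * w j * (if i = j then 0 else 1)) ≤ ∑ u, T1 I S w u ^ 2 := by
  have h1 : ∑ u, T1 I S w u ^ 2 = ∑ i ∈ I, ∑ j ∈ I, w i * w j * (∑ u, sg S i u * sg S j u) := by
    unfold T1
    simp only [sq, Finset.sum_mul_sum]
    rw [Finset.sum_comm]
    refine Finset.sum_congr rfl fun i _ => ?_
    rw [Finset.sum_comm]
    refine Finset.sum_congr rfl fun j _ => ?_
    rw [Finset.mul_sum]
    refine Finset.sum_congr rfl fun u _ => ?_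
    ring
  rw [h1, Finset.mul_sum, ← Finset.sum_sub_distrib]
  refine Finset.sum_le_sum fun i hi => ?_
  rw [Finset.mul_sum, ← Finset.sum_sub_distrib]
  refine Finset.sum_le_sum fun j hj => ?_
  rw [sum_sg_mul, cnt_ne h hi hj (s := true) (t := false) (by decide),
    cnt_ne h hi hj (s := false) (t := true) (by decide)]
  by_cases hij : i = j
  · subst hij
    simp only [if_true]
    have := cnt_nonneg S true true i i
    have := cnt_nonneg S false false i i
    nlinarith [mul_self_nonneg (w i)]
  · simp only [hij, if_false]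
    linarith

theorem second_order {I : Finset ι} {S : Bool → ι → Finset X} (h : Sys I S) (w : ι → ℝ) :
    (∑ i ∈ I, ∑ j ∈ I, w i * w j * (if i = j then 0 else
        (cnt S true true i j * (cnt S true true i j - 1) +
          cnt S false false i j * (cnt S false false i j - 1)))) +
      2 * (∑ i ∈ I, ∑ j ∈ I, w i * w j * (if i = j then 0 else
        (cnt S true true i j * cnt S false false i j))) -
      4 * (∑ i ∈ I, ∑ j ∈ I, w i * w j * (if i = j then 0 else
        (cnt S true true i j + cnt S false false i j))) +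
      2 * (∑ i ∈ I, ∑ j ∈ I, w i * w j * (if i = j then 0 else 1)) ≤
      ∑ t ∈ D2 X, T2 I S w t ^ 2 := by
  have h1 : ∑ t ∈ D2 X, T2 I S w t ^ 2 = ∑ i ∈ I, ∑ j ∈ I, w i * w j *
      ((∑ u, sg S i u * sg S j u) ^ 2 - ∑ u, (sg S i u * sg S j u) ^ 2) := by
    unfold T2
    simp only [sq, Finset.sum_mul_sum]
    rw [Finset.sum_comm]
    refine Finset.sum_congr rfl fun i _ => ?_
    rw [Finset.sum_comm]
    refine Finset.sum_congr rfl fun j _ => ?_
    rw [← Finset.sum_mul_sum, ← sum_D2 (fun u => sg S i u * sg S j u) (fun u => sg S i u * sg S j u),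
      Finset.mul_sum]
    refine Finset.sum_congr rfl fun t _ => ?_
    ring
  rw [h1, Finset.mul_sum, Finset.mul_sum, Finset.mul_sum, ← Finset.sum_add_distrib,
    ← Finset.sum_sub_distrib, ← Finset.sum_add_distrib]
  refine Finset.sum_le_sum fun i hi => ?_
  rw [Finset.mul_sum, Finset.mul_sum, Finset.mul_sum, ← Finset.sum_add_distrib,
    ← Finset.sum_sub_distrib, ← Finset.sum_add_distrib]
  refine Finset.sum_le_sum fun j hj => ?_
  rw [sum_sg_mul, sum_sg_sq h hi hj, cnt_ne h hi hj (s := true) (t := false) (by decide),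
    cnt_ne h hi hj (s := false) (t := true) (by decide)]
  by_cases hij : i = j
  · subst hij
    simp only [if_true]
    have h5 : cnt S true true i i + cnt S false false i i
        = (((S true i ∩ S true i).card + (S false i ∩ S false i).card : ℕ) : ℝ) := by
      rw [cnt_eq_card, cnt_eq_card]; push_cast; ring
    have h6 : 0 ≤ (cnt S true true i i + cnt S false false i i) ^ 2
        - (cnt S true true i i + cnt S false false i i) := by
      rw [h5]
      set m := (S true i ∩ S true i).card + (S false i ∩ S false i).card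
      rcases Nat.eq_zero_or_pos m with hm | hm
      · rw [hm]; simp
      · have : (1 : ℝ) ≤ m := by exact_mod_cast hm
        nlinarith
    have := mul_nonneg (mul_self_nonneg (w i)) h6
    linarith
  · simp only [hij, if_false]
    apply le_of_eq
    ring

theorem mixed_order {I : Finset ι} {S : Bool → ι → Finset X} (h : Sys I S) (w : ι → ℝ) :
    (∑ i ∈ I, ∑ j ∈ I, w i * w j * (if i = j then 0 else 1)) ≤
      (∑ i ∈ I, ∑ j ∈ I, w i * w j * (if i = j then 0 else
        (cnt S true true i j * cnt S false false i j))) +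
      ∑ i ∈ I, w i * w i * (cnt S true true i i * cnt S false false i i) := by
  have h0 : 0 ≤ ∑ u, ∑ v, ((∑ i ∈ I, w i * (ind S true i u * ind S false i v)) -
      (∑ i ∈ I, w i * (ind S true i v * ind S false i u))) ^ 2 :=
    Finset.sum_nonneg fun u _ => Finset.sum_nonneg fun v _ => sq_nonneg _
  have e1 : ∑ u, ∑ v, (∑ i ∈ I, w i * (ind S true i u * ind S false i v)) *
      (∑ i ∈ I, w i * (ind S true i u * ind S false i v))
      = ∑ i ∈ I, ∑ j ∈ I, w i * w j * (cnt S true true i j * cnt S false false i j) := by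
    simp only [Finset.sum_mul_sum]
    have : ∀ i j, w i * w j * (cnt S true true i j * cnt S false false i j)
        = ∑ u, ∑ v, w i * (ind S true i u * ind S false i v) *
          (w j * (ind S true j u * ind S false j v)) := by
      intro i j
      unfold cnt
      rw [Finset.sum_mul_sum, Finset.mul_sum]
      refine Finset.sum_congr rfl fun u _ => ?_
      rw [Finset.mul_sum]
      refine Finset.sum_congr rfl fun v _ => ?_
      ring
    simp only [this]
    have hsw : ∀ f : X → X → ι → ι → ℝ, ∑ u, ∑ v, ∑ i ∈ I, ∑ j ∈ I, f u v i j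
        = ∑ i ∈ I, ∑ j ∈ I, ∑ u, ∑ v, f u v i j := by
      intro f
      calc ∑ u, ∑ v, ∑ i ∈ I, ∑ j ∈ I, f u v i j = ∑ u, ∑ i ∈ I, ∑ v, ∑ j ∈ I, f u v i j := by
            refine Finset.sum_congr rfl fun u _ => ?_
            rw [Finset.sum_comm]
        _ = ∑ i ∈ I, ∑ u, ∑ v, ∑ j ∈ I, f u v i j := by rw [Finset.sum_comm]
        _ = ∑ i ∈ I, ∑ u, ∑ j ∈ I, ∑ v, f u v i j := by
            refine Finset.sum_congr rfl fun i _ => Finset.sum_congr rfl fun u _ => ?_
            rw [Finset.sum_comm]
        _ = _ := by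
            refine Finset.sum_congr rfl fun i _ => ?_
            rw [Finset.sum_comm]
    rw [hsw]
  have e1' : ∑ u, ∑ v, (∑ i ∈ I, w i * (ind S true i v * ind S false i u)) *
      (∑ i ∈ I, w i * (ind S true i v * ind S false i u))
      = ∑ i ∈ I, ∑ j ∈ I, w i * w j * (cnt S true true i j * cnt S false false i j) := by
    rw [Finset.sum_comm, e1]
  have e2 : ∑ u, ∑ v, (∑ i ∈ I, w i * (ind S true i u * ind S false i v)) *
      (∑ i ∈ I, w i * (ind S true i v * ind S false i u))
      = ∑ i ∈ I, ∑ j ∈ I, w i * w j * (cnt S true false i j * cnt S false true i j) := by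
    simp only [Finset.sum_mul_sum]
    have : ∀ i j, w i * w j * (cnt S true false i j * cnt S false true i j)
        = ∑ u, ∑ v, w i * (ind S true i u * ind S false i v) *
          (w j * (ind S true j v * ind S false j u)) := by
      intro i j
      unfold cnt
      rw [Finset.sum_mul_sum, Finset.mul_sum]
      refine Finset.sum_congr rfl fun u _ => ?_
      rw [Finset.mul_sum]
      refine Finset.sum_congr rfl fun v _ => ?_
      ring
    simp only [this]
    have hsw : ∀ f : X → X → ι → ι → ℝ, ∑ u, ∑ v, ∑ i ∈ I, ∑ j ∈ I, f u v i j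
        = ∑ i ∈ I, ∑ j ∈ I, ∑ u, ∑ v, f u v i j := by
      intro f
      calc ∑ u, ∑ v, ∑ i ∈ I, ∑ j ∈ I, f u v i j = ∑ u, ∑ i ∈ I, ∑ v, ∑ j ∈ I, f u v i j := by
            refine Finset.sum_congr rfl fun u _ => ?_
            rw [Finset.sum_comm]
        _ = ∑ i ∈ I, ∑ u, ∑ v, ∑ j ∈ I, f u v i j := by rw [Finset.sum_comm]
        _ = ∑ i ∈ I, ∑ u, ∑ j ∈ I, ∑ v, f u v i j := by
            refine Finset.sum_congr rfl fun i _ => Finset.sum_congr rfl fun u _ => ?_
            rw [Finset.sum_comm]
        _ = _ := by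
            refine Finset.sum_congr rfl fun i _ => ?_
            rw [Finset.sum_comm]
    rw [hsw]
  have e3 : ∑ u, ∑ v, ((∑ i ∈ I, w i * (ind S true i u * ind S false i v)) -
      (∑ i ∈ I, w i * (ind S true i v * ind S false i u))) ^ 2 =
      2 * (∑ i ∈ I, ∑ j ∈ I, w i * w j * (cnt S true true i j * cnt S false false i j)) -
      2 * (∑ i ∈ I, ∑ j ∈ I, w i * w j * (cnt S true false i j * cnt S false true i j)) := by
    have : ∀ x y : ℝ, (x - y) ^ 2 = x * x + y * y - 2 * (x * y) := by intro x y; ring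
    simp only [this, Finset.sum_sub_distrib, Finset.sum_add_distrib, ← Finset.mul_sum]
    rw [e1, e1', e2]
    ring
  rw [e3] at h0
  have e4 : ∑ i ∈ I, ∑ j ∈ I, w i * w j * (cnt S true false i j * cnt S false true i j)
      = ∑ i ∈ I, ∑ j ∈ I, w i * w j * (if i = j then 0 else 1) := by
    refine Finset.sum_congr rfl fun i hi => Finset.sum_congr rfl fun j hj => ?_
    rw [cnt_ne h hi hj (s := true) (t := false) (by decide),
      cnt_ne h hi hj (s := false) (t := true) (by decide)]
    split_ifs <;> ring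
  have e5 : ∑ i ∈ I, ∑ j ∈ I, w i * w j * (cnt S true true i j * cnt S false false i j)
      = (∑ i ∈ I, ∑ j ∈ I, w i * w j * (if i = j then 0 else
        (cnt S true true i j * cnt S false false i j))) +
      ∑ i ∈ I, w i * w i * (cnt S true true i i * cnt S false false i i) := by
    rw [← Finset.sum_add_distrib]
    refine Finset.sum_congr rfl fun i hi => ?_
    have : w i * w i * (cnt S true true i i * cnt S false false i i)
        = ∑ j ∈ I, (if i = j then w i * w j * (cnt S true true i j * cnt S false false i j) else 0) := by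
      rw [Finset.sum_ite_eq, if_pos hi]
    rw [this, ← Finset.sum_add_distrib]
    refine Finset.sum_congr rfl fun j hj => ?_
    split_ifs <;> ring
  rw [e4, e5] at h0
  linarith

/-- The combined inequality for the Fourier weights of order at most three. -/
theorem fourier_lower {I : Finset ι} {S : Bool → ι → Finset X} (h : Sys I S) (w : ι → ℝ)
    (hw : ∀ i ∈ I, 0 ≤ w i) :
    1 / 2 * (∑ i ∈ I, ∑ j ∈ I, w i * w j * (if i = j then 0 else 1)) ≤
      9 / 4 * (∑ u, T1 I S w u ^ 2) + 2 * (∑ t ∈ D2 X, T2 I S w t ^ 2) +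
      4 * (∑ t ∈ D3 X, T3 I S w t ^ 2) +
      ∑ i ∈ I, w i * w i * (cnt S true true i i * cnt S false false i i) := by
  have a1 := first_order h w
  have a2 := second_order h w
  have a3 := third_order h w hw
  have a4 := mixed_order h w
  linarith

end W12

section Energy

variable (I : Finset ι) (S : Bool → ι → Finset X) (w : ι → ℝ)

/-- Fourier coefficient of a set of points. -/
def FT (T : Finset X) : ℝ := ∑ i ∈ I, w i * ∏ u ∈ T, sg S i u

omit [DecidableEq ι] in
theorem energy_eq (τ : ℝ) :
    ∑ i ∈ I, ∑ j ∈ I, w i * w j * ∏ u : X, (1 + τ * (sg S i u * sg S j u)) =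
      ∑ T : Finset X, τ ^ T.card * FT I S w T ^ 2 := by
  have h1 : ∀ i j, w i * w j * ∏ u : X, (1 + τ * (sg S i u * sg S j u)) =
      ∑ T : Finset X, τ ^ T.card * ((w i * ∏ u ∈ T, sg S i u) * (w j * ∏ u ∈ T, sg S j u)) := by
    intro i j
    rw [Finset.prod_one_add, Finset.mul_sum, Finset.powerset_univ]
    refine Finset.sum_congr rfl fun T _ => ?_
    rw [Finset.prod_mul_distrib, Finset.prod_mul_distrib, Finset.prod_const]
    ring
  simp only [h1]
  have h2 : ∀ T : Finset X, τ ^ T.card * FT I S w T ^ 2 = ∑ i ∈ I, ∑ j ∈ I,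
      τ ^ T.card * ((w i * ∏ u ∈ T, sg S i u) * (w j * ∏ u ∈ T, sg S j u)) := by
    intro T
    unfold FT
    rw [sq, Finset.sum_mul_sum, Finset.mul_sum]
    refine Finset.sum_congr rfl fun i _ => ?_
    rw [Finset.mul_sum]
  simp only [h2]
  rw [Finset.sum_comm]
  rw [Finset.sum_comm]
  calc ∑ i ∈ I, ∑ j ∈ I, ∑ T : Finset X,
        τ ^ T.card * ((w i * ∏ u ∈ T, sg S i u) * (w j * ∏ u ∈ T, sg S j u))
      = ∑ i ∈ I, ∑ T : Finset X, ∑ j ∈ I,
        τ ^ T.card * ((w i * ∏ u ∈ T, sg S i u) * (w j * ∏ u ∈ T, sg S j u)) := by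
        refine Finset.sum_congr rfl fun i _ => ?_
        rw [Finset.sum_comm]
    _ = _ := by rw [Finset.sum_comm]

theorem card_pair_fiber (T : Finset X) (hT : T.card = 2) :
    ((D2 X).filter (fun t => ({t.1, t.2} : Finset X) = T)).card ≤ 2 := by
  obtain ⟨a, b, hab, rfl⟩ := Finset.card_eq_two.mp hT
  have : (D2 X).filter (fun t => ({t.1, t.2} : Finset X) = {a, b}) ⊆ {(a, b), (b, a)} := by
    rintro ⟨x, y⟩ hxy
    rw [Finset.mem_filter, D2, Finset.mem_filter] at hxy
    obtain ⟨⟨-, hne⟩, heq⟩ := hxy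
    simp only at hne heq
    have hx : x ∈ ({a, b} : Finset X) := by rw [← heq]; simp
    have hy : y ∈ ({a, b} : Finset X) := by rw [← heq]; simp
    simp only [Finset.mem_insert, Finset.mem_singleton] at hx hy
    simp only [Finset.mem_insert, Finset.mem_singleton, Prod.mk.injEq]
    rcases hx with rfl | rfl <;> rcases hy with rfl | rfl <;> simp_all
  exact (Finset.card_le_card this).trans Finset.card_le_two

theorem card_triple_fiber (T : Finset X) (hT : T.card = 3) :
    ((D3 X).filter (fun t => ({t.1, t.2.1, t.2.2} : Finset X) = T)).card ≤ 6 := by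
  obtain ⟨a, b, c, hab, hac, hbc, rfl⟩ := Finset.card_eq_three.mp hT
  have : (D3 X).filter (fun t => ({t.1, t.2.1, t.2.2} : Finset X) = {a, b, c}) ⊆
      {(a, b, c), (a, c, b), (b, a, c), (b, c, a), (c, a, b), (c, b, a)} := by
    rintro ⟨x, y, z⟩ hxy
    rw [Finset.mem_filter, D3, Finset.mem_filter] at hxy
    obtain ⟨⟨-, h1, h2, h3⟩, heq⟩ := hxy
    simp only at h1 h2 h3 heq
    have hx : x ∈ ({a, b, c} : Finset X) := by rw [← heq]; simp
    have hy : y ∈ ({a, b, c} : Finset X) := by rw [← heq]; simp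
    have hz : z ∈ ({a, b, c} : Finset X) := by rw [← heq]; simp
    clear heq
    simp only [Finset.mem_insert, Finset.mem_singleton] at hx hy hz
    simp only [Finset.mem_insert, Finset.mem_singleton, Prod.mk.injEq]
    rcases hx with rfl | rfl | rfl <;> rcases hy with rfl | rfl | rfl <;>
      rcases hz with rfl | rfl | rfl <;> simp_all
  exact (Finset.card_le_card this).trans Finset.card_le_six

theorem T2_le : ∑ t ∈ D2 X, T2 I S w t ^ 2 ≤
    2 * ∑ T ∈ (univ : Finset (Finset X)).filter (fun T => T.card = 2), FT I S w T ^ 2 := by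
  have h1 : ∀ t ∈ D2 X, T2 I S w t ^ 2 = FT I S w {t.1, t.2} ^ 2 := by
    intro t ht
    rw [D2, Finset.mem_filter] at ht
    unfold T2 FT
    congr 1
    refine Finset.sum_congr rfl fun i _ => ?_
    rw [Finset.prod_pair ht.2]
  rw [Finset.sum_congr rfl h1]
  have h2 : ∀ t ∈ D2 X, ({t.1, t.2} : Finset X) ∈
      (univ : Finset (Finset X)).filter (fun T => T.card = 2) := by
    intro t ht
    rw [D2, Finset.mem_filter] at ht
    rw [Finset.mem_filter]
    exact ⟨Finset.mem_univ _, Finset.card_pair ht.2⟩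
  rw [← Finset.sum_fiberwise_of_maps_to h2, Finset.mul_sum]
  refine Finset.sum_le_sum fun T hT => ?_
  rw [Finset.mem_filter] at hT
  have h3 : ∑ t ∈ (D2 X).filter (fun t => ({t.1, t.2} : Finset X) = T), FT I S w {t.1, t.2} ^ 2
      = ∑ t ∈ (D2 X).filter (fun t => ({t.1, t.2} : Finset X) = T), FT I S w T ^ 2 := by
    refine Finset.sum_congr rfl fun t ht => ?_
    rw [Finset.mem_filter] at ht
    rw [ht.2]
  rw [h3, Finset.sum_const, nsmul_eq_mul]
  refine mul_le_mul_of_nonneg_right ?_ (sq_nonneg _)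
  exact_mod_cast card_pair_fiber T hT.2

theorem T3_le : ∑ t ∈ D3 X, T3 I S w t ^ 2 ≤
    6 * ∑ T ∈ (univ : Finset (Finset X)).filter (fun T => T.card = 3), FT I S w T ^ 2 := by
  have h1 : ∀ t ∈ D3 X, T3 I S w t ^ 2 = FT I S w {t.1, t.2.1, t.2.2} ^ 2 := by
    intro t ht
    rw [D3, Finset.mem_filter] at ht
    unfold T3 FT
    congr 1
    refine Finset.sum_congr rfl fun i _ => ?_
    rw [Finset.prod_insert, Finset.prod_pair ht.2.2.2]
    · ring
    · simp only [Finset.mem_insert, Finset.mem_singleton, not_or]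
      exact ⟨ht.2.1, ht.2.2.1⟩
  rw [Finset.sum_congr rfl h1]
  have h2 : ∀ t ∈ D3 X, ({t.1, t.2.1, t.2.2} : Finset X) ∈
      (univ : Finset (Finset X)).filter (fun T => T.card = 3) := by
    intro t ht
    rw [D3, Finset.mem_filter] at ht
    rw [Finset.mem_filter]
    exact ⟨Finset.mem_univ _, Finset.card_eq_three.mpr
      ⟨t.1, t.2.1, t.2.2, ht.2.1, ht.2.2.1, ht.2.2.2, rfl⟩⟩
  rw [← Finset.sum_fiberwise_of_maps_to h2, Finset.mul_sum]
  refine Finset.sum_le_sum fun T hT => ?_
  rw [Finset.mem_filter] at hT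
  have h3 : ∑ t ∈ (D3 X).filter (fun t => ({t.1, t.2.1, t.2.2} : Finset X) = T),
      FT I S w {t.1, t.2.1, t.2.2} ^ 2
      = ∑ t ∈ (D3 X).filter (fun t => ({t.1, t.2.1, t.2.2} : Finset X) = T), FT I S w T ^ 2 := by
    refine Finset.sum_congr rfl fun t ht => ?_
    rw [Finset.mem_filter] at ht
    rw [ht.2]
  rw [h3, Finset.sum_const, nsmul_eq_mul]
  refine mul_le_mul_of_nonneg_right ?_ (sq_nonneg _)
  exact_mod_cast card_triple_fiber T hT.2

omit [DecidableEq ι] in
theorem T1_eq : ∑ u, T1 I S w u ^ 2 =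
    ∑ T ∈ (univ : Finset (Finset X)).filter (fun T => T.card = 1), FT I S w T ^ 2 := by
  have h1 : ∀ u, T1 I S w u ^ 2 = FT I S w {u} ^ 2 := by
    intro u
    unfold T1 FT
    simp
  simp only [h1]
  have h2 : (univ : Finset (Finset X)).filter (fun T => T.card = 1)
      = (univ : Finset X).image (fun u => ({u} : Finset X)) := by
    ext T
    simp only [Finset.mem_filter, Finset.mem_univ, true_and, Finset.mem_image,
      Finset.card_eq_one]
    constructor
    · rintro ⟨a, rfl⟩; exact ⟨a, rfl⟩
    · rintro ⟨a, rfl⟩; exact ⟨a, rfl⟩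
  rw [h2, Finset.sum_image]
  intro a _ b _ hab
  exact Finset.singleton_injective hab

/-- Lower bound for the energy by the terms of order at most three. -/
theorem energy_lower (τ : ℝ) (hτ : 0 ≤ τ) :
    (∑ i ∈ I, w i) ^ 2 + τ * (∑ u, T1 I S w u ^ 2) + τ ^ 2 / 2 * (∑ t ∈ D2 X, T2 I S w t ^ 2) +
      τ ^ 3 / 6 * (∑ t ∈ D3 X, T3 I S w t ^ 2) ≤
    ∑ i ∈ I, ∑ j ∈ I, w i * w j * ∏ u : X, (1 + τ * (sg S i u * sg S j u)) := by
  rw [energy_eq]
  have hlev : ∀ k : ℕ, ∑ T ∈ (univ : Finset (Finset X)).filter (fun T => T.card = k),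
      τ ^ T.card * FT I S w T ^ 2 =
      τ ^ k * ∑ T ∈ (univ : Finset (Finset X)).filter (fun T => T.card = k), FT I S w T ^ 2 := by
    intro k
    rw [Finset.mul_sum]
    refine Finset.sum_congr rfl fun T hT => ?_
    rw [Finset.mem_filter] at hT
    rw [hT.2]
  have hsub : ∑ k ∈ Finset.range 4, ∑ T ∈ (univ : Finset (Finset X)).filter (fun T => T.card = k),
      τ ^ T.card * FT I S w T ^ 2 ≤ ∑ T : Finset X, τ ^ T.card * FT I S w T ^ 2 := by
    have h1 : ∑ k ∈ Finset.range 4,
        ∑ T ∈ (univ : Finset (Finset X)).filter (fun T => T.card = k),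
        τ ^ T.card * FT I S w T ^ 2
        = ∑ T ∈ (univ : Finset (Finset X)).filter (fun T => T.card ∈ Finset.range 4),
        τ ^ T.card * FT I S w T ^ 2 := by
      have h2 : ∀ T ∈ (univ : Finset (Finset X)).filter (fun T => T.card ∈ Finset.range 4),
          T.card ∈ Finset.range 4 := by
        intro T hT
        rw [Finset.mem_filter] at hT
        exact hT.2
      rw [← Finset.sum_fiberwise_of_maps_to h2]
      refine Finset.sum_congr rfl fun k hk => ?_
      refine Finset.sum_congr ?_ fun _ _ => rfl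
      ext T
      simp only [Finset.mem_filter, Finset.mem_univ, true_and]
      constructor
      · intro hT; subst hT; exact ⟨hk, rfl⟩
      · intro hT; exact hT.2
    rw [h1]
    refine Finset.sum_le_sum_of_subset_of_nonneg (Finset.filter_subset _ _) fun T _ _ => ?_
    positivity
  refine le_trans ?_ hsub
  simp only [hlev]
  rw [Finset.sum_range_succ, Finset.sum_range_succ, Finset.sum_range_succ, Finset.sum_range_succ,
    Finset.sum_range_zero]
  have h0 : ∑ T ∈ (univ : Finset (Finset X)).filter (fun T => T.card = 0), FT I S w T ^ 2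
      = (∑ i ∈ I, w i) ^ 2 := by
    have : (univ : Finset (Finset X)).filter (fun T => T.card = 0) = {∅} := by
      ext T; simp
    rw [this, Finset.sum_singleton]
    unfold FT
    simp
  have h2 := T2_le I S w
  have h3 := T3_le I S w
  rw [h0, ← T1_eq]
  have e2 : τ ^ 2 / 2 * (∑ t ∈ D2 X, T2 I S w t ^ 2) ≤ τ ^ 2 *
      ∑ T ∈ (univ : Finset (Finset X)).filter (fun T => T.card = 2), FT I S w T ^ 2 := by
    have := mul_le_mul_of_nonneg_left h2 (by positivity : (0:ℝ) ≤ τ ^ 2 / 2)
    linarith
  have e3 : τ ^ 3 / 6 * (∑ t ∈ D3 X, T3 I S w t ^ 2) ≤ τ ^ 3 *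
      ∑ T ∈ (univ : Finset (Finset X)).filter (fun T => T.card = 3), FT I S w T ^ 2 := by
    have := mul_le_mul_of_nonneg_left h3 (by positivity : (0:ℝ) ≤ τ ^ 3 / 6)
    linarith
  linarith

omit [DecidableEq ι] in
/-- Evaluation of the product kernel. -/
theorem prod_kernel {I : Finset ι} {S : Bool → ι → Finset X} (h : Sys I S) {i j : ι} (hi : i ∈ I)
    (hj : j ∈ I) (τ : ℝ) :
    ∏ u : X, (1 + τ * (sg S i u * sg S j u)) =
      (1 + τ) ^ (S true i ∩ S true j).card * (1 + τ) ^ (S false i ∩ S false j).card *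
      ((1 - τ) ^ (S true i ∩ S false j).card * (1 - τ) ^ (S false i ∩ S true j).card) := by
  have hp : ∀ (c : ℝ) (U : Finset X), ∏ u : X, (if u ∈ U then c else 1) = c ^ U.card := by
    intro c U
    rw [Finset.prod_ite_mem, Finset.univ_inter, Finset.prod_const]
  rw [← hp, ← hp, ← hp, ← hp, ← Finset.prod_mul_distrib, ← Finset.prod_mul_distrib,
    ← Finset.prod_mul_distrib]
  refine Finset.prod_congr rfl fun u _ => ?_
  have hi' : ¬ (u ∈ S true i ∧ u ∈ S false i) := by
    rintro ⟨a, b⟩
    have : u ∈ S true i ∩ S false i := mem_inter.mpr ⟨a, b⟩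
    rw [h.disj i hi] at this
    exact absurd this (notMem_empty u)
  have hj' : ¬ (u ∈ S true j ∧ u ∈ S false j) := by
    rintro ⟨a, b⟩
    have : u ∈ S true j ∩ S false j := mem_inter.mpr ⟨a, b⟩
    rw [h.disj j hj] at this
    exact absurd this (notMem_empty u)
  unfold sg ind
  by_cases h1 : u ∈ S true i <;> by_cases h2 : u ∈ S false i <;> by_cases h3 : u ∈ S true j <;>
    by_cases h4 : u ∈ S false j <;> simp [h1, h2, h3, h4] at hi' hj' ⊢ <;> ring

end Energy

section Upper

/-- Weight of a pair. -/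
def wt (γ : ℝ) (S : Bool → ι → Finset X) (i : ι) : ℝ :=
  γ ^ ((S true i).card + (S false i).card)

/-- Conflict set of two pairs. -/
def conf (S : Bool → ι → Finset X) (i j : ι) : Finset X :=
  (S true i ∩ S false j) ∪ (S false i ∩ S true j)

/-- The union of the two sets of a pair. -/
def dom (S : Bool → ι → Finset X) (i : ι) : Finset X := S true i ∪ S false i

/-- The pairs outside `j` whose trace on `R` is the conflict with `j`. -/
def sel (I : Finset ι) (S : Bool → ι → Finset X) (j : ι) (R : Finset X) : Finset ι :=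
  I.filter (fun i => i ≠ j ∧ dom S i ∩ R = conf S i j)

/-- Removing the points of the pair `j`. -/
def cut (S : Bool → ι → Finset X) (j : ι) : Bool → ι → Finset X :=
  fun s i => S s i \ dom S j

omit [Fintype X] in
theorem sys_cut {I : Finset ι} {S : Bool → ι → Finset X} (h : Sys I S) {j : ι} (hj : j ∈ I)
    (R : Finset X) : Sys (sel I S j R) (cut S j) := by
  have hdj := h.disj j hj
  constructor
  · intro i hi
    rw [sel, Finset.mem_filter] at hi
    have hd := h.disj i hi.1
    rw [Finset.eq_empty_iff_forall_notMem] at hd ⊢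
    intro x hx
    unfold cut at hx
    rw [Finset.mem_inter, Finset.mem_sdiff, Finset.mem_sdiff] at hx
    exact hd x (Finset.mem_inter.mpr ⟨hx.1.1, hx.2.1⟩)
  · intro i hi k hk hik
    rw [sel, Finset.mem_filter] at hi hk
    have hdi := h.disj i hi.1
    have hdk := h.disj k hk.1
    have hone := h.one i hi.1 k hk.1 hik
    rw [Finset.eq_empty_iff_forall_notMem] at hdi hdk hdj
    have : cut S j true i ∩ cut S j false k = S true i ∩ S false k := by
      ext x
      unfold cut
      simp only [Finset.mem_inter, Finset.mem_sdiff]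
      constructor
      · rintro ⟨⟨a, -⟩, ⟨b, -⟩⟩; exact ⟨a, b⟩
      · rintro ⟨a, b⟩
        have hnot : x ∉ dom S j := by
          intro hx
          rw [dom, Finset.mem_union] at hx
          rcases hx with hx | hx
          · -- x ∈ A_j ∩ B_k, conflict of k with j
            have hc : x ∈ conf S k j := by
              rw [conf, Finset.mem_union]; right; exact Finset.mem_inter.mpr ⟨b, hx⟩
            rw [← hk.2.2, Finset.mem_inter] at hc
            have hc2 : x ∈ dom S i ∩ R := Finset.mem_inter.mpr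
              ⟨by rw [dom, Finset.mem_union]; left; exact a, hc.2⟩
            rw [hi.2.2, conf, Finset.mem_union, Finset.mem_inter, Finset.mem_inter] at hc2
            rcases hc2 with ⟨-, hb⟩ | ⟨hb, -⟩
            · exact hdj x (Finset.mem_inter.mpr ⟨hx, hb⟩)
            · exact hdi x (Finset.mem_inter.mpr ⟨a, hb⟩)
          · have hc : x ∈ conf S i j := by
              rw [conf, Finset.mem_union]; left; exact Finset.mem_inter.mpr ⟨a, hx⟩
            rw [← hi.2.2, Finset.mem_inter] at hc
            have hc2 : x ∈ dom S k ∩ R := Finset.mem_inter.mpr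
              ⟨by rw [dom, Finset.mem_union]; right; exact b, hc.2⟩
            rw [hk.2.2, conf, Finset.mem_union, Finset.mem_inter, Finset.mem_inter] at hc2
            rcases hc2 with ⟨hb, -⟩ | ⟨-, hb⟩
            · exact hdk x (Finset.mem_inter.mpr ⟨hb, b⟩)
            · exact hdj x (Finset.mem_inter.mpr ⟨hb, hx⟩)
        exact ⟨⟨a, hnot⟩, ⟨b, hnot⟩⟩
    rw [this]; exact hone

/-- Number of agreements of two pairs. -/
def agr (S : Bool → ι → Finset X) (i j : ι) : ℕ :=
  (S true i ∩ S true j).card + (S false i ∩ S false j).card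

omit [Fintype X] in
theorem conf_card {I : Finset ι} {S : Bool → ι → Finset X} (h : Sys I S) {i j : ι} (hi : i ∈ I)
    (hj : j ∈ I) (hij : i ≠ j) : (conf S i j).card = 2 := by
  rw [conf, Finset.card_union_of_disjoint]
  · have h1 := h.one i hi j hj hij
    have h2 := h.one j hj i hi hij.symm
    rw [Finset.inter_comm] at h2
    rw [h1, h2]
  · rw [Finset.disjoint_left]
    intro x hx hx'
    rw [Finset.mem_inter] at hx hx'
    have := h.disj i hi
    rw [Finset.eq_empty_iff_forall_notMem] at this
    exact this x (Finset.mem_inter.mpr ⟨hx.1, hx'.1⟩)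

omit [Fintype X] in
theorem dom_card {I : Finset ι} {S : Bool → ι → Finset X} (h : Sys I S) {i : ι} (hi : i ∈ I) :
    (dom S i).card = (S true i).card + (S false i).card := by
  rw [dom, Finset.card_union_of_disjoint]
  rw [Finset.disjoint_iff_inter_eq_empty]
  exact h.disj i hi

omit [Fintype X] in
theorem conf_sub (S : Bool → ι → Finset X) (i j : ι) : conf S i j ⊆ dom S i ∩ dom S j := by
  intro x hx
  rw [conf, Finset.mem_union, Finset.mem_inter, Finset.mem_inter] at hx
  rw [Finset.mem_inter, dom, dom, Finset.mem_union, Finset.mem_union]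
  tauto

omit [Fintype X] in
theorem dom_inter_card {I : Finset ι} {S : Bool → ι → Finset X} (h : Sys I S) {i j : ι}
    (hi : i ∈ I) (hj : j ∈ I) (hij : i ≠ j) : (dom S i ∩ dom S j).card = agr S i j + 2 := by
  rw [← conf_card h hi hj hij]
  have hdi := h.disj i hi
  have hdj := h.disj j hj
  rw [Finset.eq_empty_iff_forall_notMem] at hdi hdj
  have e : dom S i ∩ dom S j = ((S true i ∩ S true j) ∪ (S false i ∩ S false j)) ∪ conf S i j := by
    ext x
    unfold dom conf
    simp only [Finset.mem_inter, Finset.mem_union]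
    tauto
  rw [e, Finset.card_union_of_disjoint, Finset.card_union_of_disjoint, agr]
  · rw [Finset.disjoint_left]
    intro x hx hx'
    rw [Finset.mem_inter] at hx hx'
    exact hdi x (Finset.mem_inter.mpr ⟨hx.1, hx'.1⟩)
  · rw [Finset.disjoint_left]
    intro x hx hx'
    rw [conf] at hx'
    simp only [Finset.mem_inter, Finset.mem_union] at hx hx'
    have := hdi x
    have := hdj x
    simp only [Finset.mem_inter] at *
    tauto

omit [Fintype X] in
/-- The cut weight. -/
theorem cut_card {I : Finset ι} {S : Bool → ι → Finset X} (h : Sys I S) {i j : ι}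
    (hi : i ∈ I) (hj : j ∈ I) (hij : i ≠ j) :
    (cut S j true i).card + (cut S j false i).card + (agr S i j + 2) =
      (S true i).card + (S false i).card := by
  rw [← dom_inter_card h hi hj hij, ← dom_card h hi]
  have hdi := h.disj i hi
  have e : dom S i \ dom S j = cut S j true i ∪ cut S j false i := by
    unfold cut dom
    ext x
    simp only [Finset.mem_sdiff, Finset.mem_union]
    tauto
  have e2 : (cut S j true i ∪ cut S j false i).card =
      (cut S j true i).card + (cut S j false i).card := by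
    rw [Finset.card_union_of_disjoint]
    rw [Finset.disjoint_left]
    intro x hx hx'
    unfold cut at hx hx'
    rw [Finset.mem_sdiff] at hx hx'
    rw [Finset.eq_empty_iff_forall_notMem] at hdi
    exact hdi x (Finset.mem_inter.mpr ⟨hx.1, hx'.1⟩)
  rw [← e2, ← e]
  exact Finset.card_sdiff_add_card_inter _ _

omit [Fintype X] in
/-- Lower bound for the probability that the trace is the conflict. -/
theorem prob_lower {I : Finset ι} {S : Bool → ι → Finset X} (h : Sys I S) {i j : ι}
    (hi : i ∈ I) (hj : j ∈ I) (hij : i ≠ j) (p : ℝ) (hp0 : 0 ≤ p) (hp1 : p ≤ 1) :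
    p ^ 2 * (1 - p) ^ (agr S i j) ≤
      ∑ R ∈ (dom S j).powerset.filter (fun R => dom S i ∩ R = conf S i j),
        p ^ R.card * (1 - p) ^ ((dom S j).card - R.card) := by
  have h1p : 0 ≤ 1 - p := by linarith
  have hcs := conf_sub S i j
  have hci : conf S i j ⊆ dom S i := hcs.trans Finset.inter_subset_left
  have hcj : conf S i j ⊆ dom S j := hcs.trans Finset.inter_subset_right
  have hdjc : ∀ T ⊆ dom S j \ dom S i, Disjoint (conf S i j) T := by
    intro T hT
    rw [Finset.disjoint_left]
    intro x hx hx'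
    exact (Finset.mem_sdiff.mp (hT hx')).2 (hci hx)
  have hsub : ((dom S j \ dom S i).powerset.image (fun T => conf S i j ∪ T)) ⊆
      (dom S j).powerset.filter (fun R => dom S i ∩ R = conf S i j) := by
    intro R hR
    rw [Finset.mem_image] at hR
    obtain ⟨T, hT, rfl⟩ := hR
    rw [Finset.mem_powerset] at hT
    rw [Finset.mem_filter, Finset.mem_powerset]
    refine ⟨Finset.union_subset hcj (hT.trans Finset.sdiff_subset), ?_⟩
    ext x
    simp only [Finset.mem_inter, Finset.mem_union]
    constructor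
    · rintro ⟨a, b | b⟩
      · exact b
      · exact absurd a (Finset.mem_sdiff.mp (hT b)).2
    · intro hx
      exact ⟨hci hx, Or.inl hx⟩
  refine le_trans ?_ (Finset.sum_le_sum_of_subset_of_nonneg hsub (fun R _ _ => by positivity))
  rw [Finset.sum_image]
  swap
  · intro T hT T' hT' heq
    simp only [Finset.coe_powerset, Set.mem_preimage, Set.mem_powerset_iff,
      Finset.coe_subset] at hT hT'
    simp only at heq
    ext x
    have key : x ∈ conf S i j ∪ T ↔ x ∈ conf S i j ∪ T' := by rw [heq]
    rw [Finset.mem_union, Finset.mem_union] at key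
    constructor
    · intro hx
      rcases key.mp (Or.inr hx) with hc | hc
      · exact absurd hx (Finset.disjoint_left.mp (hdjc T hT) hc)
      · exact hc
    · intro hx
      rcases key.mpr (Or.inr hx) with hc | hc
      · exact absurd hx (Finset.disjoint_left.mp (hdjc T' hT') hc)
      · exact hc
  have hcard : ∀ T ∈ (dom S j \ dom S i).powerset,
      p ^ (conf S i j ∪ T).card * (1 - p) ^ ((dom S j).card - (conf S i j ∪ T).card)
      = p ^ 2 * (1 - p) ^ (agr S i j) *
        (p ^ T.card * (1 - p) ^ ((dom S j \ dom S i).card - T.card)) := by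
    intro T hT
    rw [Finset.mem_powerset] at hT
    have c1 : (conf S i j ∪ T).card = 2 + T.card := by
      rw [Finset.card_union_of_disjoint (hdjc T hT), conf_card h hi hj hij]
    have c2 : (dom S j \ dom S i).card + (agr S i j + 2) = (dom S j).card := by
      rw [← dom_inter_card h hi hj hij, Finset.inter_comm]
      exact Finset.card_sdiff_add_card_inter _ _
    have c3 : T.card ≤ (dom S j \ dom S i).card := Finset.card_le_card hT
    have c4 : (dom S j).card - (conf S i j ∪ T).card
        = agr S i j + ((dom S j \ dom S i).card - T.card) := by omega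
    rw [c4, c1, pow_add, pow_add]
    ring
  rw [Finset.sum_congr rfl hcard, ← Finset.mul_sum, Finset.sum_pow_mul_eq_add_pow]
  have : p + (1 - p) = 1 := by ring
  rw [this, one_pow, mul_one]

/-- The upper bound from a maximal system. -/
theorem upper_one {I : Finset ι} {S : Bool → ι → Finset X} (h : Sys I S) {j : ι} (hj : j ∈ I)
    (γ : ℝ) (hγ : 0 < γ) (Z : ℝ)
    (hZ : ∀ (I' : Finset ι) (S' : Bool → ι → Finset X), Sys I' S' → ∑ i ∈ I', wt γ S' i ≤ Z)
    (p : ℝ) (hp0 : 0 ≤ p) (hp1 : p ≤ 1) :
    p ^ 2 * ∑ i ∈ I.erase j, wt γ S i * ((1 - p) / γ) ^ (agr S i j) ≤ γ ^ 2 * Z := by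
  have h1p : 0 ≤ 1 - p := by linarith
  have hstep : ∀ R ∈ (dom S j).powerset,
      (p ^ R.card * (1 - p) ^ ((dom S j).card - R.card)) *
        ∑ i ∈ (I.erase j).filter (fun i => dom S i ∩ R = conf S i j),
          wt γ S i * (1 / γ) ^ (agr S i j + 2) ≤
      (p ^ R.card * (1 - p) ^ ((dom S j).card - R.card)) * Z := by
    intro R _
    refine mul_le_mul_of_nonneg_left ?_ (by positivity)
    refine le_trans (le_of_eq ?_) (hZ _ _ (sys_cut h hj R))
    have hsel : sel I S j R = (I.erase j).filter (fun i => dom S i ∩ R = conf S i j) := by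
      ext i
      rw [sel, Finset.mem_filter, Finset.mem_filter, Finset.mem_erase]
      tauto
    rw [hsel]
    refine Finset.sum_congr rfl fun i hi => ?_
    rw [Finset.mem_filter, Finset.mem_erase] at hi
    have hc := cut_card h hi.1.2 hj hi.1.1
    unfold wt
    rw [← hc, pow_add γ _ (agr S i j + 2), mul_assoc, ← mul_pow, mul_one_div_cancel hγ.ne',
      one_pow, mul_one]
  have hsum := Finset.sum_le_sum hstep
  rw [← Finset.sum_mul, Finset.sum_pow_mul_eq_add_pow] at hsum
  have hpp : p + (1 - p) = 1 := by ring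
  rw [hpp, one_pow, one_mul] at hsum
  have hswap : ∑ R ∈ (dom S j).powerset, (p ^ R.card * (1 - p) ^ ((dom S j).card - R.card)) *
        ∑ i ∈ (I.erase j).filter (fun i => dom S i ∩ R = conf S i j),
          wt γ S i * (1 / γ) ^ (agr S i j + 2)
      = ∑ i ∈ I.erase j, (wt γ S i * (1 / γ) ^ (agr S i j + 2)) *
        ∑ R ∈ (dom S j).powerset.filter (fun R => dom S i ∩ R = conf S i j),
          p ^ R.card * (1 - p) ^ ((dom S j).card - R.card) := by
    simp only [Finset.sum_filter, Finset.mul_sum]
    rw [Finset.sum_comm]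
    refine Finset.sum_congr rfl fun i _ => Finset.sum_congr rfl fun R _ => ?_
    split_ifs <;> ring
  rw [hswap] at hsum
  have hlow : ∑ i ∈ I.erase j, (wt γ S i * (1 / γ) ^ (agr S i j + 2)) *
        (p ^ 2 * (1 - p) ^ (agr S i j)) ≤ Z := by
    refine le_trans (Finset.sum_le_sum fun i hi => ?_) hsum
    rw [Finset.mem_erase] at hi
    refine mul_le_mul_of_nonneg_left (prob_lower h hi.2 hj hi.1 p hp0 hp1) ?_
    unfold wt
    positivity
  have hfin : γ ^ 2 * ∑ i ∈ I.erase j, (wt γ S i * (1 / γ) ^ (agr S i j + 2)) *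
        (p ^ 2 * (1 - p) ^ (agr S i j)) =
      p ^ 2 * ∑ i ∈ I.erase j, wt γ S i * ((1 - p) / γ) ^ (agr S i j) := by
    rw [Finset.mul_sum, Finset.mul_sum]
    refine Finset.sum_congr rfl fun i _ => ?_
    have hγ' : γ ≠ 0 := hγ.ne'
    rw [pow_add, div_pow (1 - p) γ, one_div, inv_pow, inv_pow]
    field_simp
  rw [← hfin]
  exact mul_le_mul_of_nonneg_left hlow (by positivity)

end Upper

section Final

/-- The exponential base used for the weights. -/
theorem exists_max_sys [Fintype ι] (γ : ℝ) : ∃ (I : Finset ι) (S : Bool → ι → Finset X),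
    Sys I S ∧ ∀ (I' : Finset ι) (S' : Bool → ι → Finset X), Sys I' S' →
      ∑ i ∈ I', wt γ S' i ≤ ∑ i ∈ I, wt γ S i := by
  classical
  let C := {c : Finset ι × (Bool → ι → Finset X) // Sys c.1 c.2}
  have : Nonempty C := ⟨⟨(∅, fun _ _ => ∅), ⟨by simp, by simp⟩⟩⟩
  have : Finite C := inferInstance
  obtain ⟨c, hc⟩ := Finite.exists_max (fun c : C => ∑ i ∈ c.1.1, wt γ c.1.2 i)
  refine ⟨c.1.1, c.1.2, c.2, fun I' S' h' => ?_⟩
  exact hc ⟨(I', S'), h'⟩

theorem nat_le_pow (n : ℕ) : (n : ℝ) ≤ (3 / 2 : ℝ) ^ n := by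
  rcases Nat.lt_or_ge n 2 with h | h
  · interval_cases n <;> norm_num
  · induction n, h using Nat.le_induction with
    | base => norm_num
    | succ k hk ih =>
      rw [pow_succ]
      push_cast
      have : (2 : ℝ) ≤ k := by exact_mod_cast hk
      linarith

theorem nat_mul_pow_le (n : ℕ) : (n : ℝ) * (1000 / 1999 : ℝ) ^ n ≤ 1 := by
  have h := nat_le_pow n
  have h2 : (0 : ℝ) ≤ (1000 / 1999 : ℝ) ^ n := by positivity
  calc (n : ℝ) * (1000 / 1999 : ℝ) ^ n ≤ (3 / 2 : ℝ) ^ n * (1000 / 1999 : ℝ) ^ n :=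
        mul_le_mul_of_nonneg_right h h2
    _ = (3 / 2 * (1000 / 1999) : ℝ) ^ n := by rw [mul_pow]
    _ ≤ 1 := pow_le_one₀ (by norm_num) (by norm_num)

/-- The weighted bound for a weight-maximal system. -/
theorem max_bound {I : Finset ι} {S : Bool → ι → Finset X} (h : Sys I S)
    (hZ : ∀ (I' : Finset ι) (S' : Bool → ι → Finset X), Sys I' S' →
      ∑ i ∈ I', wt (1000 / 1999) S' i ≤ ∑ i ∈ I, wt (1000 / 1999) S i) :
    ∑ i ∈ I, wt (1000 / 1999) S i ≤ 1400 := by
  set γ : ℝ := 1000 / 1999 with hγdef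
  have hγ : 0 < γ := by rw [hγdef]; norm_num
  set Z : ℝ := ∑ i ∈ I, wt γ S i with hZdef
  have hw0 : ∀ i, 0 ≤ wt γ S i := fun i => by unfold wt; positivity
  have hw1 : ∀ i, wt γ S i ≤ 1 := fun i => by
    unfold wt
    exact pow_le_one₀ hγ.le (by rw [hγdef]; norm_num)
  have hZ0 : 0 ≤ Z := Finset.sum_nonneg fun i _ => hw0 i
  -- lower bound for the energy
  have hlow := energy_lower I S (wt γ S) (3 / 4) (by norm_num)
  have hfou := fourier_lower h (wt γ S) (fun i _ => hw0 i)
  -- off-diagonal mass
  have hN : ∑ i ∈ I, ∑ j ∈ I, wt γ S i * wt γ S j * (if i = j then 0 else 1) ≥ Z ^ 2 - Z := by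
    have e1 : Z ^ 2 = ∑ i ∈ I, ∑ j ∈ I, wt γ S i * wt γ S j := by
      rw [hZdef, sq, Finset.sum_mul_sum]
    have e2 : ∑ i ∈ I, ∑ j ∈ I, wt γ S i * wt γ S j * (if i = j then 0 else 1)
        = Z ^ 2 - ∑ i ∈ I, wt γ S i * wt γ S i := by
      rw [e1, ← Finset.sum_sub_distrib]
      refine Finset.sum_congr rfl fun i hi => ?_
      have : wt γ S i * wt γ S i = ∑ j ∈ I, (if i = j then wt γ S i * wt γ S j else 0) := by
        rw [Finset.sum_ite_eq, if_pos hi]
      rw [this, ← Finset.sum_sub_distrib]
      refine Finset.sum_congr rfl fun j _ => ?_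
      split_ifs <;> ring
    have e3 : ∑ i ∈ I, wt γ S i * wt γ S i ≤ Z := by
      rw [hZdef]
      refine Finset.sum_le_sum fun i _ => ?_
      calc wt γ S i * wt γ S i ≤ wt γ S i * 1 := mul_le_mul_of_nonneg_left (hw1 i) (hw0 i)
        _ = _ := mul_one _
    rw [e2]; linarith
  have hdiag : ∑ i ∈ I, wt γ S i * wt γ S i * (cnt S true true i i * cnt S false false i i) ≤ Z := by
    rw [hZdef]
    refine Finset.sum_le_sum fun i _ => ?_
    have e1 : wt γ S i * (cnt S true true i i * cnt S false false i i) ≤ 1 := by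
      rw [cnt_eq_card, cnt_eq_card, Finset.inter_self, Finset.inter_self]
      unfold wt
      have a1 := nat_mul_pow_le (S true i).card
      have a2 := nat_mul_pow_le (S false i).card
      rw [pow_add]
      calc γ ^ (S true i).card * γ ^ (S false i).card *
            (((S true i).card : ℝ) * ((S false i).card : ℝ))
          = (((S true i).card : ℝ) * γ ^ (S true i).card) *
            (((S false i).card : ℝ) * γ ^ (S false i).card) := by ring
        _ ≤ 1 * 1 := mul_le_mul a1 a2 (by positivity) (by norm_num)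
        _ = 1 := by norm_num
    calc wt γ S i * wt γ S i * (cnt S true true i i * cnt S false false i i)
        = wt γ S i * (wt γ S i * (cnt S true true i i * cnt S false false i i)) := by ring
      _ ≤ wt γ S i * 1 := mul_le_mul_of_nonneg_left e1 (hw0 i)
      _ = _ := mul_one _
  -- upper bound for the energy
  have hup : ∑ i ∈ I, ∑ j ∈ I, wt γ S i * wt γ S j *
      ∏ u : X, (1 + 3 / 4 * (sg S i u * sg S j u)) ≤ 1000000 / 992016 * Z ^ 2 + Z := by
    rw [Finset.sum_comm]
    have hj : ∀ j ∈ I, ∑ i ∈ I, wt γ S i * wt γ S j *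
        ∏ u : X, (1 + 3 / 4 * (sg S i u * sg S j u)) ≤
        wt γ S j * (1000000 / 992016 * Z) + wt γ S j := by
      intro j hj
      rw [← Finset.add_sum_erase I _ hj]
      have c1 : wt γ S j * wt γ S j * ∏ u : X, (1 + 3 / 4 * (sg S j u * sg S j u)) ≤ wt γ S j := by
        rw [prod_kernel h hj hj, Finset.inter_self, Finset.inter_self, h.disj j hj,
          Finset.inter_comm (S false j), h.disj j hj]
        have : wt γ S j * ((1 + 3 / 4 : ℝ) ^ (S true j).card * (1 + 3 / 4) ^ (S false j).card) ≤ 1 := by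
          unfold wt
          rw [← pow_add, ← mul_pow]
          exact pow_le_one₀ (by positivity) (by rw [hγdef]; norm_num)
        calc _ = wt γ S j * (wt γ S j *
              ((1 + 3 / 4 : ℝ) ^ (S true j).card * (1 + 3 / 4) ^ (S false j).card)) := by
              simp; ring
          _ ≤ wt γ S j * 1 := mul_le_mul_of_nonneg_left this (hw0 j)
          _ = _ := mul_one _
      have c2 : ∑ i ∈ I.erase j, wt γ S i * wt γ S j *
          ∏ u : X, (1 + 3 / 4 * (sg S i u * sg S j u)) =
          wt γ S j * (1 / 16 * ∑ i ∈ I.erase j, wt γ S i * (7 / 4) ^ (agr S i j)) := by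
        rw [Finset.mul_sum, Finset.mul_sum]
        refine Finset.sum_congr rfl fun i hi => ?_
        rw [Finset.mem_erase] at hi
        rw [prod_kernel h hi.2 hj, h.one i hi.2 j hj hi.1,
          Finset.inter_comm (S false i) (S true j), h.one j hj i hi.2 hi.1.symm, agr, pow_add]
        norm_num
        ring
      have c3 := upper_one h hj γ hγ Z hZ (249 / 1999) (by norm_num) (by norm_num)
      have c4 : (1 - 249 / 1999 : ℝ) / γ = 7 / 4 := by rw [hγdef]; norm_num
      rw [c4] at c3
      have c5 : 1 / 16 * ∑ i ∈ I.erase j, wt γ S i * (7 / 4) ^ (agr S i j)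
          ≤ 1000000 / 992016 * Z := by
        rw [hγdef] at c3 ⊢
        norm_num at c3 ⊢
        linarith
      have c6 := mul_le_mul_of_nonneg_left c5 (hw0 j)
      rw [c2]
      linarith
    refine (Finset.sum_le_sum hj).trans (le_of_eq ?_)
    rw [Finset.sum_add_distrib, ← Finset.sum_mul]
    rw [← hZdef]
    ring
  have hmain := hlow.trans hup
  have hT1 : 0 ≤ ∑ u, T1 I S (wt γ S) u ^ 2 := Finset.sum_nonneg fun _ _ => sq_nonneg _
  have hT2 : 0 ≤ ∑ t ∈ D2 X, T2 I S (wt γ S) t ^ 2 := Finset.sum_nonneg fun _ _ => sq_nonneg _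
  have hkey : Z * (Z * (1 + 9 / 1024 - 1000000 / 992016)) ≤ Z * (1 + 27 / 1024) := by
    rw [← hZdef] at hmain
    norm_num at hmain
    nlinarith
  by_contra hcon
  push Not at hcon
  have hZpos : 0 < Z := by linarith
  have := le_of_mul_le_mul_left hkey hZpos
  norm_num at this
  linarith

/-- Weighted bound for all systems. -/
theorem weighted_bound [Fintype ι] (I : Finset ι) (S : Bool → ι → Finset X) (h : Sys I S) :
    ∑ i ∈ I, wt (1000 / 1999) S i ≤ 1400 := by
  obtain ⟨I₀, S₀, h₀, hmax⟩ := exists_max_sys (ι := ι) (X := X) (1000 / 1999)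
  exact (hmax I S h).trans (max_bound h₀ hmax)

end Final

section Statement

/-- `A`, `B` form an `(n, n)`-restricted 1-cross intersecting set pair system of size `m`. -/
def IsSystem (n m : ℕ) (A B : Fin m → Finset ℕ) : Prop :=
  (∀ i, A i ∩ B i = ∅) ∧ (∀ i j, i ≠ j → (A i ∩ B j).card = 1) ∧
    (∀ i, (A i).card ≤ n ∧ (B i).card ≤ n)

/-- The set of sizes `m ≥ 2` of such systems. -/
def sizes (n : ℕ) : Set ℕ := {m : ℕ | 2 ≤ m ∧ ∃ A B : Fin m → Finset ℕ, IsSystem n m A B}

/-- The largest size of such a system. -/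
noncomputable def maxSize (n : ℕ) : ℕ := sSup (sizes n)

theorem card_fin_filter (K : ℕ) (U : Finset ℕ) (hU : ∀ x ∈ U, x < K) :
    (univ.filter (fun x : Fin K => (x : ℕ) ∈ U)).card = U.card := by
  rw [← Finset.card_image_of_injective _ Fin.val_injective]
  congr 1
  ext x
  simp only [Finset.mem_image, Finset.mem_filter, Finset.mem_univ, true_and]
  constructor
  · rintro ⟨y, hy, rfl⟩; exact hy
  · intro hx; exact ⟨⟨x, hU x hx⟩, hx, rfl⟩

theorem size_bound {n m : ℕ} {A B : Fin m → Finset ℕ} (h : IsSystem n m A B) :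
    (m : ℝ) ≤ 1400 * (3996001 / 1000000 : ℝ) ^ n := by
  obtain ⟨h1, h2, h3⟩ := h
  obtain ⟨K, hK⟩ : ∃ K : ℕ, ∀ i, (∀ x ∈ A i, x < K) ∧ (∀ x ∈ B i, x < K) := by
    refine ⟨(univ.biUnion (fun i => A i ∪ B i)).sup id + 1, fun i => ⟨fun x hx => ?_, fun x hx => ?_⟩⟩
    · have : x ∈ univ.biUnion (fun i => A i ∪ B i) :=
        Finset.mem_biUnion.mpr ⟨i, Finset.mem_univ i, Finset.mem_union_left _ hx⟩
      have := Finset.le_sup (f := id) this
      simp only [id] at this
      omega
    · have : x ∈ univ.biUnion (fun i => A i ∪ B i) :=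
        Finset.mem_biUnion.mpr ⟨i, Finset.mem_univ i, Finset.mem_union_right _ hx⟩
      have := Finset.le_sup (f := id) this
      simp only [id] at this
      omega
  let S : Bool → Fin m → Finset (Fin K) := fun s i =>
    univ.filter (fun x : Fin K => (x : ℕ) ∈ (if s then A i else B i))
  have hSt : ∀ i, S true i = univ.filter (fun x : Fin K => (x : ℕ) ∈ A i) := fun i => by
    simp [S]
  have hSf : ∀ i, S false i = univ.filter (fun x : Fin K => (x : ℕ) ∈ B i) := fun i => by
    simp [S]
  have hSi : ∀ i j, S true i ∩ S false j = univ.filter (fun x : Fin K => (x : ℕ) ∈ A i ∩ B j) := by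
    intro i j
    rw [hSt, hSf]
    ext x
    simp
  have hsys : Sys (univ : Finset (Fin m)) S := by
    constructor
    · intro i _
      rw [hSi, h1 i]
      simp
    · intro i _ j _ hij
      rw [hSi, card_fin_filter K (A i ∩ B j) (fun x hx => (hK i).1 x (Finset.mem_inter.mp hx).1),
        h2 i j hij]
  have hw := weighted_bound univ S hsys
  have hlow : ∀ i ∈ (univ : Finset (Fin m)), (1000 / 1999 : ℝ) ^ (2 * n) ≤ wt (1000 / 1999) S i := by
    intro i _
    unfold wt
    refine pow_le_pow_of_le_one (by norm_num) (by norm_num) ?_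
    rw [hSt, hSf, card_fin_filter K _ (hK i).1, card_fin_filter K _ (hK i).2]
    have := h3 i
    omega
  have hs := (Finset.sum_le_sum hlow).trans hw
  rw [Finset.sum_const, Finset.card_univ, Fintype.card_fin, nsmul_eq_mul] at hs
  have hpos : (0 : ℝ) ≤ (3996001 / 1000000 : ℝ) ^ n := by positivity
  have hprod : (1000 / 1999 : ℝ) ^ (2 * n) * (3996001 / 1000000 : ℝ) ^ n = 1 := by
    rw [pow_mul, ← mul_pow]
    norm_num
  calc (m : ℝ) = (m : ℝ) * (1000 / 1999 : ℝ) ^ (2 * n) * (3996001 / 1000000 : ℝ) ^ n := by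
        rw [mul_assoc, hprod, mul_one]
    _ ≤ 1400 * (3996001 / 1000000 : ℝ) ^ n := mul_le_mul_of_nonneg_right hs hpos

theorem sizes_bdd (n : ℕ) : BddAbove (sizes n) := by
  refine ⟨⌈1400 * (3996001 / 1000000 : ℝ) ^ n⌉₊, ?_⟩
  rintro m ⟨-, A, B, h⟩
  have h1 := size_bound h
  have h2 := Nat.le_ceil (1400 * (3996001 / 1000000 : ℝ) ^ n)
  exact_mod_cast h1.trans h2

theorem two_mem (n : ℕ) (hn : 1 ≤ n) : 2 ∈ sizes n := by
  refine ⟨le_rfl, ![{0}, {1}], ![{1}, {0}], ?_, ?_, ?_⟩
  · intro i; fin_cases i <;> simp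
  · intro i j hij; fin_cases i <;> fin_cases j <;> simp at hij ⊢
  · intro i; fin_cases i <;> simp <;> omega

theorem maxSize_mem (n : ℕ) (hn : 1 ≤ n) : IsGreatest (sizes n) (maxSize n) :=
  ⟨Nat.sSup_mem ⟨2, two_mem n hn⟩ (sizes_bdd n), fun _ hm => le_csSup (sizes_bdd n) hm⟩

theorem maxSize_le (n : ℕ) (hn : 1 ≤ n) :
    (maxSize n : ℝ) ≤ 1400 * (3996001 / 1000000 : ℝ) ^ n := by
  obtain ⟨-, A, B, h⟩ := (maxSize_mem n hn).1
  exact size_bound h

/-- Product construction. -/
theorem prod_mem {k l p q : ℕ} (hp : p ∈ sizes k) (hq : q ∈ sizes l) : p * q ∈ sizes (k + l) := by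
  obtain ⟨hp2, A, B, hA1, hA2, hA3⟩ := hp
  obtain ⟨hq2, C, D, hC1, hC2, hC3⟩ := hq
  refine ⟨by nlinarith, ?_⟩
  let e : Fin (p * q) ≃ Fin p × Fin q := finProdFinEquiv.symm
  let f : ℕ → ℕ → ℕ := fun a x => Nat.pair a x
  have finj : ∀ a, Function.Injective (f a) := fun a x y hxy => (Nat.pair_eq_pair.mp hxy).2
  let A' : Fin (p * q) → Finset ℕ := fun t =>
    (A (e t).1).image (f 0) ∪ (C (e t).2).image (f ((e t).1 + 1))
  let B' : Fin (p * q) → Finset ℕ := fun t =>
    (B (e t).1).image (f 0) ∪ (D (e t).2).image (f ((e t).1 + 1))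
  have hcross : ∀ (a b : ℕ) (U V : Finset ℕ), a ≠ b → Disjoint (U.image (f a)) (V.image (f b)) := by
    intro a b U V hab
    rw [Finset.disjoint_left]
    intro x hx hx'
    rw [Finset.mem_image] at hx hx'
    obtain ⟨y, -, hy⟩ := hx
    obtain ⟨z, -, hz⟩ := hx'
    exact hab (Nat.pair_eq_pair.mp (hy.trans hz.symm)).1
  have hsame : ∀ (a : ℕ) (U V : Finset ℕ), U.image (f a) ∩ V.image (f a) = (U ∩ V).image (f a) :=
    fun a U V => (Finset.image_inter _ _ (finj a)).symm
  have hint : ∀ s t, A' s ∩ B' t = (A (e s).1 ∩ B (e t).1).image (f 0) ∪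
      (C (e s).2).image (f ((e s).1 + 1)) ∩ (D (e t).2).image (f ((e t).1 + 1)) := by
    intro s t
    simp only [A', B']
    rw [Finset.union_inter_distrib_right, Finset.inter_union_distrib_left,
      Finset.inter_union_distrib_left, hsame,
      Finset.disjoint_iff_inter_eq_empty.mp (hcross 0 ((e t).1 + 1) _ _ (by omega)),
      Finset.disjoint_iff_inter_eq_empty.mp (hcross ((e s).1 + 1) 0 _ _ (by omega)),
      Finset.union_empty, Finset.empty_union]
  refine ⟨A', B', ?_, ?_, ?_⟩
  · intro t
    rw [hint, hsame, hA1, hC1]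
    simp
  · intro s t hst
    rw [hint]
    by_cases h1 : (e s).1 = (e t).1
    · have h2 : (e s).2 ≠ (e t).2 := by
        intro h2
        exact hst (e.injective (Prod.ext h1 h2))
      rw [h1, hA1, hsame, Finset.image_empty, Finset.empty_union,
        Finset.card_image_of_injective _ (finj _)]
      exact hC2 _ _ h2
    · have h3 : ((e s).1 : ℕ) + 1 ≠ ((e t).1 : ℕ) + 1 := by
        intro h3
        exact h1 (Fin.ext (by omega))
      rw [Finset.disjoint_iff_inter_eq_empty.mp (hcross _ _ _ _ h3), Finset.union_empty,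
        Finset.card_image_of_injective _ (finj _)]
      exact hA2 _ _ h1
  · intro t
    have a1 := hA3 (e t).1
    have a2 := hC3 (e t).2
    constructor
    · refine (Finset.card_union_le _ _).trans ?_
      rw [Finset.card_image_of_injective _ (finj _), Finset.card_image_of_injective _ (finj _)]
      omega
    · refine (Finset.card_union_le _ _).trans ?_
      rw [Finset.card_image_of_injective _ (finj _), Finset.card_image_of_injective _ (finj _)]
      omega

theorem maxSize_mul {k l : ℕ} (hk : 1 ≤ k) (hl : 1 ≤ l) :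
    maxSize k * maxSize l ≤ maxSize (k + l) :=
  (maxSize_mem (k + l) (by omega)).2 (prod_mem (maxSize_mem k hk).1 (maxSize_mem l hl).1)

theorem maxSize_pow {n : ℕ} (hn : 1 ≤ n) (k : ℕ) : maxSize n ^ (k + 1) ≤ maxSize ((k + 1) * n) := by
  induction k with
  | zero => simp
  | succ k ih =>
    calc maxSize n ^ (k + 1 + 1) = maxSize n ^ (k + 1) * maxSize n := pow_succ _ _
      _ ≤ maxSize ((k + 1) * n) * maxSize n := Nat.mul_le_mul_right _ ih
      _ ≤ maxSize ((k + 1) * n + n) := maxSize_mul (by nlinarith) hn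
      _ = _ := by congr 1; ring

theorem maxSize_le_pow {n : ℕ} (hn : 1 ≤ n) :
    (maxSize n : ℝ) ≤ (3996001 / 1000000 : ℝ) ^ n := by
  by_contra hcon
  push Not at hcon
  have hb : (0 : ℝ) < (3996001 / 1000000 : ℝ) ^ n := by positivity
  have hr : 1 < (maxSize n : ℝ) / (3996001 / 1000000 : ℝ) ^ n := by
    rw [lt_div_iff₀ hb, one_mul]; exact hcon
  obtain ⟨k, hk⟩ := pow_unbounded_of_one_lt 1400 hr
  have hk1 : (1400 : ℝ) < ((maxSize n : ℝ) / (3996001 / 1000000 : ℝ) ^ n) ^ (k + 1) := by
    rw [pow_succ]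
    have : (1400 : ℝ) * 1 ≤ ((maxSize n : ℝ) / (3996001 / 1000000 : ℝ) ^ n) ^ k *
        ((maxSize n : ℝ) / (3996001 / 1000000 : ℝ) ^ n) :=
      mul_le_mul hk.le hr.le (by norm_num) (by positivity)
    nlinarith
  have h1 := maxSize_le ((k + 1) * n) (by nlinarith)
  have h2 : ((maxSize n : ℝ)) ^ (k + 1) ≤ (maxSize ((k + 1) * n) : ℝ) := by
    exact_mod_cast maxSize_pow hn k
  rw [div_pow, lt_div_iff₀ (by positivity), ← pow_mul, mul_comm n] at hk1
  linarith

theorem maxSize_zero : maxSize 0 = 0 := by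
  have : sizes 0 = ∅ := by
    rw [Set.eq_empty_iff_forall_notMem]
    rintro m ⟨hm, A, B, h1, h2, h3⟩
    have hA : A ⟨0, by omega⟩ = ∅ := by
      have := (h3 ⟨0, by omega⟩).1
      exact Finset.card_eq_zero.mp (by omega)
    have := h2 ⟨0, by omega⟩ ⟨1, by omega⟩ (by simp)
    rw [hA] at this
    simp at this
  unfold maxSize
  rw [this]
  simp

theorem two_le_maxSize {n : ℕ} (hn : 1 ≤ n) : 2 ≤ maxSize n :=
  (maxSize_mem n hn).2 (two_mem n hn)

theorem subadd : Subadditive (fun n : ℕ => -Real.log (maxSize n)) := by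
  intro k l
  rcases Nat.eq_zero_or_pos k with rfl | hk
  · simp [maxSize_zero]
  rcases Nat.eq_zero_or_pos l with rfl | hl
  · simp [maxSize_zero]
  have h1 := maxSize_mul hk hl
  have hk0 : (0 : ℝ) < maxSize k := by
    have := two_le_maxSize hk
    exact_mod_cast (by omega : 0 < maxSize k)
  have hl0 : (0 : ℝ) < maxSize l := by
    have := two_le_maxSize hl
    exact_mod_cast (by omega : 0 < maxSize l)
  have h2 : Real.log (maxSize k) + Real.log (maxSize l) ≤ Real.log (maxSize (k + l)) := by
    rw [← Real.log_mul hk0.ne' hl0.ne']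
    exact Real.log_le_log (by positivity) (by exact_mod_cast h1)
  simp only
  linarith

theorem log_maxSize_le {n : ℕ} (hn : 1 ≤ n) :
    Real.log (maxSize n) ≤ n * Real.log (3996001 / 1000000) := by
  have h0 : (0 : ℝ) < maxSize n := by
    have := two_le_maxSize hn
    exact_mod_cast (by omega : 0 < maxSize n)
  rw [← Real.log_pow]
  exact Real.log_le_log h0 (maxSize_le_pow hn)

theorem exists_limit : ∃ l : ℝ,
    Filter.Tendsto (fun n : ℕ => (maxSize n : ℝ) ^ (1 / (n : ℝ))) Filter.atTop (nhds l) ∧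
      l ≤ 3996001 / 1000000 := by
  have hb : BddBelow (Set.range fun n : ℕ => (-Real.log (maxSize n)) / n) := by
    refine ⟨-Real.log (3996001 / 1000000), ?_⟩
    rintro x ⟨n, rfl⟩
    simp only
    rcases Nat.eq_zero_or_pos n with rfl | hn
    · have : 0 ≤ Real.log (3996001 / 1000000) := Real.log_nonneg (by norm_num)
      simp
      linarith
    · have hn0 : (0 : ℝ) < n := by exact_mod_cast hn
      rw [le_div_iff₀ hn0]
      have := log_maxSize_le hn
      linarith
  have ht := subadd.tendsto_lim hb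
  have ht2 : Filter.Tendsto (fun n : ℕ => Real.exp (-((-Real.log (maxSize n)) / n)))
      Filter.atTop (nhds (Real.exp (-subadd.lim))) :=
    (Real.continuous_exp.tendsto _).comp ht.neg
  have heq : (fun n : ℕ => Real.exp (-((-Real.log (maxSize n)) / n))) =ᶠ[Filter.atTop]
      (fun n : ℕ => (maxSize n : ℝ) ^ (1 / (n : ℝ))) := by
    filter_upwards [Filter.eventually_ge_atTop 1] with n hn
    have h0 : (0 : ℝ) < maxSize n := by
      have := two_le_maxSize hn
      exact_mod_cast (by omega : 0 < maxSize n)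
    rw [Real.rpow_def_of_pos h0]
    congr 1
    ring
  refine ⟨Real.exp (-subadd.lim), ht2.congr' heq, ?_⟩
  refine le_of_tendsto (ht2.congr' heq) ?_
  filter_upwards [Filter.eventually_ge_atTop 1] with n hn
  have hn0 : (0 : ℝ) < n := by exact_mod_cast hn
  calc (maxSize n : ℝ) ^ (1 / (n : ℝ)) ≤ ((3996001 / 1000000 : ℝ) ^ n) ^ (1 / (n : ℝ)) :=
        Real.rpow_le_rpow (by positivity) (maxSize_le_pow hn) (by positivity)
    _ = 3996001 / 1000000 := by
        rw [← Real.rpow_natCast, ← Real.rpow_mul (by norm_num), mul_one_div_cancel hn0.ne',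
          Real.rpow_one]

end Statement

/-- The largest size `m_n` of an `(n, n)`-restricted 1-cross intersecting set pair system
satisfies `m_n ≤ 3.996001 ^ n`, and the limit of `m_n ^ (1 / n)` is at most `3.996001`, so it is
less than `4`. -/
theorem result :
    (∀ n : ℕ, 1 ≤ n → IsGreatest (sizes n) (maxSize n)) ∧
    (∀ n : ℕ, 1 ≤ n → (maxSize n : ℝ) ≤ (3996001 / 1000000 : ℝ) ^ n) ∧
    ∃ l : ℝ, Filter.Tendsto (fun n : ℕ => (maxSize n : ℝ) ^ (1 / (n : ℝ))) Filter.atTop (nhds l) ∧
      l ≤ 3996001 / 1000000 ∧ l < 4 := by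
  refine ⟨fun n hn => maxSize_mem n hn, fun n hn => maxSize_le_pow hn, ?_⟩
  obtain ⟨l, h1, h2⟩ := exists_limit
  exact ⟨l, h1, h2, lt_of_le_of_lt h2 (by norm_num)⟩

end Pool.Agent.Results.MP_8fa74e_co.ExponentBelowFour
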