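import Mathlib
import Pool.Agent.Helper992.OneX.Main

set_option autoImplicit false

namespace Pool.Agent.Results.MP_8fa74e_co.LambdaBelowFour

open Finset Filter

/-- The finite sets `A 0, …, A (m-1)` and `B 0, …, B (m-1)` form an `(n, n)`-restricted 1-cross
intersecting set pair system of size `m`: `A i ∩ B i = ∅`, `|A i ∩ B j| = 1` for `i ≠ j`, and all
sets have at most `n` elements. -/
def IsSystem {α : Type} [DecidableEq α] (n m : ℕ) (A B : Fin m → Finset α) : Prop :=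
  (∀ i, A i ∩ B i = ∅) ∧ (∀ i j, i ≠ j → (A i ∩ B j).card = 1) ∧
    (∀ i, (A i).card ≤ n) ∧ ∀ i, (B i).card ≤ n

/-- All sizes `m ≥ 2` of `(n, n)`-restricted 1-cross intersecting set pair systems. -/
def sizes (n : ℕ) : Set ℕ :=
  {m | 2 ≤ m ∧ ∃ (α : Type) (_ : DecidableEq α) (A B : Fin m → Finset α), IsSystem n m A B}

/-- `m_n`: the largest size of an `(n, n)`-restricted 1-cross intersecting set pair system. -/
noncomputable def mmax (n : ℕ) : ℕ := sSup (sizes n)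

theorem weighted (α : Type) [DecidableEq α] (m : ℕ) (A B : Fin m → Finset α)
    (h0 : ∀ i, A i ∩ B i = ∅) (h1 : ∀ i j, i ≠ j → (A i ∩ B j).card = 1) :
    ∑ i, Pool.Agent.Helper992.OneX.x0 ^ ((A i).card + (B i).card) ≤ 1 :=
  Pool.Agent.Helper992.OneX.main _ univ A B rfl
    (fun k _ => Finset.disjoint_iff_inter_eq_empty.mpr (h0 k)) (fun k _ l _ hkl => h1 k l hkl)

theorem upper (n m : ℕ) (h : m ∈ sizes n) :
    (m : ℝ) ≤ ((Pool.Agent.Helper992.OneX.x0⁻¹) ^ 2) ^ n := by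
  obtain ⟨_, α, _, A, B, hAB, h1, hA, hB⟩ := h
  have hx := Pool.Agent.Helper992.OneX.x0_half
  have hx' := Pool.Agent.Helper992.OneX.x0_le
  set x := Pool.Agent.Helper992.OneX.x0 with hxd
  have hx0 : 0 < x := by linarith
  have hw := weighted α m A B hAB h1
  rw [← hxd] at hw
  have h2 : ∑ _i : Fin m, x ^ (2 * n) ≤ ∑ i, x ^ ((A i).card + (B i).card) := by
    refine Finset.sum_le_sum fun i _ => ?_
    refine pow_le_pow_of_le_one hx0.le (by linarith) ?_
    have := hA i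
    have := hB i
    omega
  rw [Finset.sum_const, Finset.card_univ, Fintype.card_fin, nsmul_eq_mul] at h2
  have h3 : (m : ℝ) * x ^ (2 * n) ≤ 1 := h2.trans hw
  rw [← pow_mul, inv_pow, ← one_div, le_div_iff₀ (by positivity)]
  exact h3

theorem two_mem (n : ℕ) (hn : 1 ≤ n) : 2 ∈ sizes n := by
  refine ⟨le_rfl, Fin 2, inferInstance, fun i => {i}, fun i => {1 - i}, ?_, ?_, ?_, ?_⟩
  · decide
  · decide
  · intro i
    simpa using hn
  · intro i
    simpa using hn

theorem greatest (n : ℕ) (hn : 1 ≤ n) : IsGreatest (sizes n) (mmax n) := by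
  have hb : BddAbove (sizes n) := by
    refine ⟨⌈((Pool.Agent.Helper992.OneX.x0⁻¹) ^ 2) ^ n⌉₊, fun m hm => ?_⟩
    have h := (upper n m hm).trans (Nat.le_ceil _)
    exact_mod_cast h
  exact ⟨Nat.sSup_mem ⟨2, two_mem n hn⟩ hb, fun m hm => le_csSup hb hm⟩

/-- There is a real number `x > 1/2` such that every 1-cross intersecting set pair system
satisfies `∑ i, x ^ (|A i| + |B i|) ≤ 1`. Hence, with `c = x⁻² < 4`, for every `n ≥ 1` the largest
size `m_n` of an `(n, n)`-restricted 1-cross intersecting set pair system (the maximum exists)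
satisfies `m_n ≤ c ^ n`, and the limit of `m_n ^ (1/n)` is at most `c`, which is smaller than
`4`. -/
theorem result : ∃ x : ℝ, 1 / 2 < x ∧
    (∀ (α : Type) [DecidableEq α] (m : ℕ) (A B : Fin m → Finset α), (∀ i, A i ∩ B i = ∅) →
      (∀ i j, i ≠ j → (A i ∩ B j).card = 1) → ∑ i, x ^ ((A i).card + (B i).card) ≤ 1) ∧
    (x⁻¹) ^ 2 < 4 ∧
    (∀ n : ℕ, 1 ≤ n → IsGreatest (sizes n) (mmax n) ∧ (mmax n : ℝ) ≤ ((x⁻¹) ^ 2) ^ n) ∧
    ∀ lam : ℝ, Tendsto (fun n : ℕ => (mmax n : ℝ) ^ (1 / (n : ℝ))) atTop (nhds lam) →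
      lam ≤ (x⁻¹) ^ 2 := by
  have hx := Pool.Agent.Helper992.OneX.x0_half
  have hx' := Pool.Agent.Helper992.OneX.x0_le
  have hx0 : 0 < Pool.Agent.Helper992.OneX.x0 := by linarith
  have hub : ∀ n : ℕ, 1 ≤ n → (mmax n : ℝ) ≤ ((Pool.Agent.Helper992.OneX.x0⁻¹) ^ 2) ^ n :=
    fun n hn => upper n (mmax n) (greatest n hn).1
  refine ⟨Pool.Agent.Helper992.OneX.x0, hx, weighted, ?_, fun n hn => ⟨greatest n hn, hub n hn⟩,
    ?_⟩
  · rw [inv_pow, ← one_div, div_lt_iff₀ (by positivity)]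
    nlinarith
  · intro lam hlam
    refine le_of_tendsto hlam ?_
    filter_upwards [Filter.eventually_ge_atTop 1] with n hn
    have hn0 : (n : ℝ) ≠ 0 := by
      have : (1 : ℝ) ≤ n := by exact_mod_cast hn
      linarith
    calc (mmax n : ℝ) ^ (1 / (n : ℝ))
        ≤ (((Pool.Agent.Helper992.OneX.x0⁻¹) ^ 2) ^ n) ^ (1 / (n : ℝ)) :=
          Real.rpow_le_rpow (by positivity) (hub n hn) (by positivity)
      _ = (Pool.Agent.Helper992.OneX.x0⁻¹) ^ 2 := by
          rw [← Real.rpow_natCast ((Pool.Agent.Helper992.OneX.x0⁻¹) ^ 2) n,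
            ← Real.rpow_mul (by positivity), mul_one_div_cancel hn0, Real.rpow_one]

end Pool.Agent.Results.MP_8fa74e_co.LambdaBelowFour
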