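import Mathlib
import Pool.Agent.Helper593.OneCross
import Pool.Agent.Helper593.OneCross2

/-!
1-cross intersecting set pair systems: every (n,n)-restricted 1-cross intersecting set pair
system of size m has m ≤ (2n+7)/(3(n+2)) * C(2n, n), for every n ≥ 2.
-/

namespace Pool.Agent.Results.MP_8fa74e_co.TwoThirds

open Finset Helper593.OneCross

universe u

lemma exists_system_bound (n m : ℕ) (hn : 2 ≤ n) (hm : 2 ≤ m) {α : Type u} [DecidableEq α]
    (A B : Fin m → Finset α) (hdisj : ∀ i, A i ∩ B i = ∅)
    (hone : ∀ i j, i ≠ j → (A i ∩ B j).card = 1)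
    (hA : ∀ i, (A i).card ≤ n) (hB : ∀ i, (B i).card ≤ n) :
    (m : ℝ) ≤ ((2 * (n : ℝ) + 7) / (3 * ((n : ℝ) + 2))) * (Nat.choose (2 * n) n : ℝ) := by
  have hsys : Sys (Finset.univ : Finset (Fin m)) A B (Finset.univ.biUnion A) n := by
    refine ⟨?_, ?_, ?_, ?_⟩
    · intro k _
      exact Finset.subset_biUnion_of_mem A (mem_univ k)
    · intro k _
      exact Finset.disjoint_iff_inter_eq_empty.mpr (hdisj k)
    · intro k _ l _ hkl
      exact hone k l hkl
    · intro k _
      exact hB k
  have hCpos : (0 : ℝ) < (Nat.choose (2 * n) n : ℝ) := by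
    exact_mod_cast Nat.choose_pos (by omega)
  by_cases hall : ∀ k, 2 ≤ (A k).card
  · have hM := main' _ rfl hsys (fun k _ => hall k)
    unfold M phi at hM
    have hge : ∀ k ∈ (Finset.univ : Finset (Fin m)),
        1 / (Nat.choose (2 * n) n : ℝ) ≤ w n (A k).card := by
      intro k _
      unfold w
      have h1 : Nat.choose (n + (A k).card) n ≤ Nat.choose (2 * n) n :=
        Nat.choose_le_choose n (by have := hA k; omega)
      have h2 := choose_pos' n (A k).card
      exact one_div_le_one_div_of_le h2 (by exact_mod_cast h1)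
    have h3 := Finset.sum_le_sum hge
    rw [Finset.sum_const, nsmul_eq_mul] at h3
    have h4 : (m : ℝ) * (1 / (Nat.choose (2 * n) n : ℝ)) ≤
        (2 * (n : ℝ) + 7) / (3 * ((n : ℝ) + 2)) := by
      have : ((Finset.univ : Finset (Fin m)).card : ℝ) = m := by simp
      rw [this] at h3
      exact h3.trans hM
    rw [mul_one_div, div_le_iff₀ hCpos] at h4
    exact h4
  · push Not at hall
    obtain ⟨i0, hi0⟩ := hall
    obtain ⟨j0, hj0⟩ : ∃ j : Fin m, j ≠ i0 := by
      by_contra hc
      push Not at hc
      have h1 : (Finset.univ : Finset (Fin m)).card ≤ 1 := by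
        rw [Finset.card_le_one]
        intro a _ b _
        rw [hc a, hc b]
      rw [Finset.card_univ, Fintype.card_fin] at h1
      omega
    have hc1 : (A i0).card = 1 := by
      have h1 := hone i0 j0 (fun e => hj0 e.symm)
      have h2 : (A i0 ∩ B j0).card ≤ (A i0).card := card_le_card inter_subset_left
      omega
    obtain ⟨x, hx⟩ := Finset.card_eq_one.mp hc1
    have hxB : ∀ j, j ≠ i0 → x ∈ B j := by
      intro j hj
      have h1 := hone i0 j (fun e => hj e.symm)
      rw [hx] at h1
      have h2 : ({x} ∩ B j).Nonempty := Finset.card_pos.mp (by omega)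
      obtain ⟨y, hy⟩ := h2
      rw [mem_inter, mem_singleton] at hy
      rw [← hy.1]
      exact hy.2
    have hsys2 : Sys ((Finset.univ : Finset (Fin m)).erase i0) A (fun k => (B k).erase x)
        (Finset.univ.biUnion A) (n - 1) := by
      refine ⟨?_, ?_, ?_, ?_⟩
      · intro k _
        exact Finset.subset_biUnion_of_mem A (mem_univ k)
      · intro k _
        exact (Finset.disjoint_iff_inter_eq_empty.mpr (hdisj k)).mono_right (erase_subset _ _)
      · intro k hk l hl hkl
        have hki := (mem_erase.mp hk).1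
        have h1 : A k ∩ (B l).erase x = A k ∩ B l := by
          ext y
          simp only [mem_inter, mem_erase]
          constructor
          · rintro ⟨h1, _, h3⟩; exact ⟨h1, h3⟩
          · rintro ⟨h1, h3⟩
            refine ⟨h1, ?_, h3⟩
            rintro rfl
            have h4 : y ∈ A k ∩ B k := mem_inter.mpr ⟨h1, hxB k hki⟩
            rw [hdisj k] at h4
            simp at h4
        rw [h1]
        exact hone k l hkl
      · intro k hk
        have hki := (mem_erase.mp hk).1
        rw [Finset.card_erase_of_mem (hxB k hki)]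
        have := hB k
        omega
    have hM : M ((Finset.univ : Finset (Fin m)).erase i0) A (n - 1) ≤ 1 := bollobas _ rfl hsys2
    unfold M at hM
    have hC' : (0 : ℝ) < (Nat.choose (n - 1 + n) (n - 1) : ℝ) := by
      exact_mod_cast Nat.choose_pos (by omega)
    have hge : ∀ k ∈ (Finset.univ : Finset (Fin m)).erase i0,
        1 / (Nat.choose (n - 1 + n) (n - 1) : ℝ) ≤ w (n - 1) (A k).card := by
      intro k _
      unfold w
      have h1 : Nat.choose (n - 1 + (A k).card) (n - 1) ≤ Nat.choose (n - 1 + n) (n - 1) :=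
        Nat.choose_le_choose (n - 1) (by have := hA k; omega)
      have h2 := choose_pos' (n - 1) (A k).card
      exact one_div_le_one_div_of_le h2 (by exact_mod_cast h1)
    have h3 := Finset.sum_le_sum hge
    rw [Finset.sum_const, nsmul_eq_mul, Finset.card_erase_of_mem (mem_univ i0),
      Finset.card_univ, Fintype.card_fin] at h3
    have h4 : ((m - 1 : ℕ) : ℝ) * (1 / (Nat.choose (n - 1 + n) (n - 1) : ℝ)) ≤ 1 := h3.trans hM
    rw [mul_one_div, div_le_iff₀ hC', one_mul] at h4
    have h5 : m - 1 ≤ Nat.choose (n - 1 + n) (n - 1) := by exact_mod_cast h4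
    have h6 : Nat.choose (2 * n) n = 2 * Nat.choose (n - 1 + n) (n - 1) := by
      obtain ⟨k, rfl⟩ : ∃ k, n = k + 1 := ⟨n - 1, by omega⟩
      have e1 : 2 * (k + 1) = (k + (k + 1)) + 1 := by ring
      rw [e1, Nat.choose_succ_succ, Nat.add_sub_cancel]
      have e2 : Nat.choose (k + (k + 1)) (k + 1) = Nat.choose (k + (k + 1)) k :=
        Nat.choose_symm_of_eq_add (by omega)
      rw [e2]
      ring
    have h7 : 2 * n ≤ Nat.choose (2 * n) n := by
      have := Nat.choose_le_centralBinom 1 n
      rw [Nat.choose_one_right] at this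
      exact this
    have h7' : 6 ≤ Nat.choose (2 * n) n := by
      rcases Nat.eq_or_lt_of_le hn with h | h
      · rw [← h]
        decide
      · omega
    have h8 : 2 * m ≤ Nat.choose (2 * n) n + 2 := by omega
    have h9 : (2 : ℝ) * (m : ℝ) ≤ (Nat.choose (2 * n) n : ℝ) + 2 := by exact_mod_cast h8
    have h10 : (6 : ℝ) ≤ (Nat.choose (2 * n) n : ℝ) := by exact_mod_cast h7'
    have h11 : (2 / 3 : ℝ) ≤ (2 * (n : ℝ) + 7) / (3 * ((n : ℝ) + 2)) := by
      rw [div_le_div_iff₀ (by norm_num) (by positivity)]
      linarith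
    have h12 := mul_le_mul_of_nonneg_right h11 hCpos.le
    linarith

/-- For every `n ≥ 2`, every `(n,n)`-restricted 1-cross intersecting set pair system of size
`m ≥ 2` satisfies `m ≤ (2n+7)/(3(n+2)) * C(2n, n)`. -/
theorem result :
    ∀ n m : ℕ, 2 ≤ n → 2 ≤ m →
      ∀ (α : Type u) [DecidableEq α] (A B : Fin m → Finset α),
        (∀ i, A i ∩ B i = ∅) →
        (∀ i j, i ≠ j → (A i ∩ B j).card = 1) →
        (∀ i, (A i).card ≤ n) → (∀ i, (B i).card ≤ n) →
        (m : ℝ) ≤ ((2 * (n : ℝ) + 7) / (3 * ((n : ℝ) + 2))) * (Nat.choose (2 * n) n : ℝ) := by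
  intro n m hn hm α _ A B hdisj hone hA hB
  exact exists_system_bound n m hn hm A B hdisj hone hA hB

end Pool.Agent.Results.MP_8fa74e_co.TwoThirds
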